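import Mathlib

namespace Pool.Agent.Lib.MP_3d42d9_lc

open MeasureTheory

/-- The uniform (fair coin) measure on Cantor space. -/
noncomputable def coin : Measure (ℕ → Bool) :=
  Measure.infinitePi (fun _ : ℕ => (PMF.uniformOfFintype Bool).toMeasure)

/-- The basic clopen set of all sequences extending the finite string `ρ`. -/
def cyl (ρ : List Bool) : Set (ℕ → Bool) :=
  {Z | ∀ (i : ℕ) (h : i < ρ.length), Z i = ρ[i]}

/-- The characteristic function of `A` as an oracle. -/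
def oracle (A : ℕ → Bool) : ℕ →. ℕ := fun n => Part.some (if A n then 1 else 0)

/-- A Martin-Loef test relative to `A`. -/
def IsMLTest (A : ℕ → Bool) (U : ℕ → Set (ℕ → Bool)) : Prop :=
  (∃ f : ℕ × List Bool →. Unit, RecursiveIn {oracle A} f ∧
    ∀ n, U n = ⋃ ρ ∈ {ρ : List Bool | (f (n, ρ)).Dom}, cyl ρ) ∧
  ∀ n, coin (U n) ≤ 2⁻¹ ^ n

/-- `X` is Martin-Loef random relative to `A`. -/
def RandomIn (A X : ℕ → Bool) : Prop :=
  ∀ U, IsMLTest A U → X ∉ ⋂ n, U n

/-- LR-reducibility. -/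
def LRle (A B : ℕ → Bool) : Prop :=
  ∀ X, RandomIn B X → RandomIn A X

end Pool.Agent.Lib.MP_3d42d9_lc
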