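import Mathlib
import Pool.Agent.Lib.MP_3d42d9_lc.Defs

namespace Pool.Agent.Lib.MP_3d42d9_lc

open MeasureTheory Function

abbrev Cs := ℕ → Bool

def toC (l : List Bool) : Cs := fun i => l.getD i false

def allStr : ℕ → List (List Bool)
  | 0 => [[]]
  | N + 1 => (allStr N).flatMap (fun l => [l ++ [false], l ++ [true]])

def pre (n : ℕ) (X : Cs) : List Bool := (List.range n).map X

def Dep {β : Type} (N : ℕ) (g : Cs → β) : Prop := ∀ X Y : Cs, (∀ i < N, X i = Y i) → g X = g Y

noncomputable def Av (N : ℕ) (g : Cs → ℝ) : ℝ :=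
  ((allStr N).map (fun l => g (toC l))).sum / 2 ^ N

def cnt (N : ℕ) (g : Cs → ℕ) : ℕ := ((allStr N).map (fun l => g (toC l))).sum

noncomputable def ind (b : Bool) : ℝ := if b then 1 else 0

def xr (Y m : Cs) : Cs := fun i => xor (Y i) (m i)

def bit (k i : ℕ) : Bool := k / 2 ^ i % 2 == 1

def blk (l z k : ℕ) (X : Cs) : Bool := (List.range z).all fun i => X (l + i) == bit k i

@[simp] theorem ind_true : ind true = 1 := rfl
@[simp] theorem ind_false : ind false = 0 := rfl
theorem ind_nonneg (b : Bool) : 0 ≤ ind b := by cases b <;> simp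
theorem ind_le_one (b : Bool) : ind b ≤ 1 := by cases b <;> simp
theorem ind_and (a b : Bool) : ind (a && b) = ind a * ind b := by cases a <;> cases b <;> simp
theorem ind_toNat (b : Bool) : ((b.toNat : ℕ) : ℝ) = ind b := by cases b <;> simp
theorem ind_mono {a b : Bool} (h : a = true → b = true) : ind a ≤ ind b := by
  cases a <;> cases b <;> simp_all

theorem bit_eq (k i : ℕ) : bit k i = k.testBit i := by
  simp [bit, Nat.testBit_eq_decide_div_mod_eq]
  rfl

theorem blk_iff {l z k : ℕ} {X : Cs} : blk l z k X = true ↔ ∀ i < z, X (l + i) = bit k i := by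
  simp [blk]

theorem Dep.mono {β : Type} {N M : ℕ} {g : Cs → β} (h : Dep N g) (hNM : N ≤ M) : Dep M g :=
  fun X Y H => h X Y fun i hi => H i (hi.trans_le hNM)

theorem Dep.comp {β γ : Type} {N : ℕ} {g : Cs → β} (h : Dep N g) (φ : β → γ) :
    Dep N (fun X => φ (g X)) := fun X Y H => by simp only [h X Y H]

theorem Dep.comp₂ {β γ δ : Type} {N : ℕ} {g : Cs → β} {g' : Cs → γ} (h : Dep N g)
    (h' : Dep N g') (φ : β → γ → δ) :
    Dep N (fun X => φ (g X) (g' X)) := fun X Y H => by simp only [h X Y H, h' X Y H]

theorem Dep.xr {β : Type} {N : ℕ} {g : Cs → β} (h : Dep N g) (m : Cs) :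
    Dep N (fun Y => g (xr Y m)) := fun X Y H => h _ _ fun i hi => by simp [MP_3d42d9_lc.xr, H i hi]

theorem Dep.upd {β : Type} {N : ℕ} {g : Cs → β} (h : Dep (N + 1) g) (b : Bool) :
    Dep N (fun X => g (update X N b)) := by
  intro X Y H
  apply h
  intro i hi
  by_cases hiN : i = N
  · subst hiN; simp
  · rw [update_of_ne hiN, update_of_ne hiN]; exact H i (by omega)

theorem Dep.upd_eq {β : Type} {N M : ℕ} {g : Cs → β} (h : Dep N g) (hNM : N ≤ M) (b : Bool)
    (X : Cs) : g (update X M b) = g X := by
  apply h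
  intro i hi
  rw [update_of_ne (by omega)]

theorem dep_blk (l z k : ℕ) : Dep (l + z) (blk l z k) := by
  intro X Y H
  rw [Bool.eq_iff_iff, blk_iff, blk_iff]
  refine forall_congr' fun i => forall_congr' fun hi => ?_
  rw [H _ (by omega)]

theorem dep_pre (n : ℕ) : Dep n (pre n) := by
  intro X Y H
  unfold pre
  exact List.map_congr_left fun i hi => H i (List.mem_range.1 hi)

@[simp] theorem length_pre (n : ℕ) (X : Cs) : (pre n X).length = n := by simp [pre]

theorem toC_pre {n i : ℕ} (X : Cs) (hi : i < n) : toC (pre n X) i = X i := by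
  simp [toC, pre, List.getD_eq_getElem?_getD, hi]

theorem Dep.toC_pre {β : Type} {N n : ℕ} {g : Cs → β} (h : Dep N g) (hn : N ≤ n) (X : Cs) :
    g (toC (pre n X)) = g X := h _ _ fun _ hi => MP_3d42d9_lc.toC_pre X (hi.trans_le hn)

theorem mem_cyl_iff {ρ : List Bool} {Z : Cs} : Z ∈ cyl ρ ↔ ρ = pre ρ.length Z := by
  constructor
  · intro h
    apply List.ext_getElem (by simp)
    intro i h1 h2
    simp [pre, h i h1]
  · intro h i hi
    rw [List.getElem_of_eq h]
    simp [pre]

theorem mem_cyl_pre (n : ℕ) (Z : Cs) : Z ∈ cyl (pre n Z) := by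
  rw [mem_cyl_iff]; simp

theorem length_of_mem_allStr : ∀ {N : ℕ} {l : List Bool}, l ∈ allStr N → l.length = N
  | 0, l, h => by simp [allStr] at h; simp [h]
  | N + 1, l, h => by
    simp only [allStr, List.mem_flatMap, List.mem_cons, List.not_mem_nil, or_false] at h
    obtain ⟨l', h1, h2 | h2⟩ := h <;> simp [h2, length_of_mem_allStr h1]

theorem toC_append {l : List Bool} (b : Bool) : toC (l ++ [b]) = update (toC l) l.length b := by
  funext i
  by_cases h : i = l.length
  · subst h; simp [toC]
  · rw [update_of_ne h]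
    simp only [toC, List.getD_eq_getElem?_getD]
    rcases lt_or_gt_of_ne h with h | h
    · rw [List.getElem?_append_left h]
    · rw [List.getElem?_eq_none (by simp; omega), List.getElem?_eq_none (by omega)]

theorem Av_zero (g : Cs → ℝ) : Av 0 g = g (fun _ => false) := by
  simp only [Av, allStr, List.map_cons, List.map_nil, List.sum_cons, List.sum_nil]
  have : toC [] = fun _ => false := by funext i; simp [toC]
  simp [this]

theorem sum_flatMap_pair {α β : Type} (L : List α) (a b : α → β) (φ : β → ℝ) :
    ((L.flatMap (fun l => [a l, b l])).map φ).sum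
      = (L.map (fun l => φ (a l))).sum + (L.map (fun l => φ (b l))).sum := by
  induction L with
  | nil => simp
  | cons x L ih => simp only [List.flatMap_cons, List.map_append, List.sum_append, ih]; simp; ring

theorem Av_succ (N : ℕ) (g : Cs → ℝ) :
    Av (N + 1) g
      = (Av N (fun X => g (update X N false)) + Av N (fun X => g (update X N true))) / 2 := by
  simp only [Av, allStr]
  rw [sum_flatMap_pair]
  have h : ∀ b : Bool, (allStr N).map (fun l => g (toC (l ++ [b])))
      = (allStr N).map (fun l => g (update (toC l) N b)) := fun b =>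
    List.map_congr_left fun l hl => by rw [toC_append, length_of_mem_allStr hl]
  rw [h, h, pow_succ]
  field_simp

theorem Av_add (N : ℕ) (g h : Cs → ℝ) : Av N (fun X => g X + h X) = Av N g + Av N h := by
  simp only [Av, List.sum_map_add]; ring

theorem Av_mul (N : ℕ) (c : ℝ) (g : Cs → ℝ) : Av N (fun X => c * g X) = c * Av N g := by
  simp only [Av, List.sum_map_mul_left]; ring

theorem Av_sub (N : ℕ) (g h : Cs → ℝ) : Av N (fun X => g X - h X) = Av N g - Av N h := by
  have := Av_add N (fun X => g X - h X) h
  simp only [sub_add_cancel] at this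
  linarith

theorem Av_const (N : ℕ) (c : ℝ) : Av N (fun _ => c) = c := by
  induction N with
  | zero => rw [Av_zero]
  | succ N ih => rw [Av_succ, ih]; ring

theorem Av_mono (N : ℕ) {g h : Cs → ℝ} (H : ∀ X, g X ≤ h X) : Av N g ≤ Av N h := by
  simp only [Av]
  gcongr
  exact List.sum_le_sum fun l _ => H _

theorem Av_nonneg (N : ℕ) {g : Cs → ℝ} (H : ∀ X, 0 ≤ g X) : 0 ≤ Av N g := by
  have := Av_mono N (g := fun _ => 0) H
  rwa [Av_const] at this

theorem Av_sum {ι : Type} (N : ℕ) (s : Finset ι) (g : ι → Cs → ℝ) :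
    Av N (fun X => ∑ i ∈ s, g i X) = ∑ i ∈ s, Av N (g i) := by
  classical
  induction s using Finset.induction_on with
  | empty => simp [Av_const]
  | insert a s ha ih => simp only [Finset.sum_insert ha, Av_add, ih]

theorem Av_stab {N M : ℕ} {g : Cs → ℝ} (h : Dep N g) (hNM : N ≤ M) : Av M g = Av N g := by
  induction M, hNM using Nat.le_induction with
  | base => rfl
  | succ M hM ih =>
    rw [Av_succ]
    simp only [h.upd_eq hM, ih]
    ring

theorem Av_stab' {N M K : ℕ} {g : Cs → ℝ} (h : Dep K g) (hN : K ≤ N) (hM : K ≤ M) :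
    Av M g = Av N g := by rw [Av_stab h hN, Av_stab h hM]

theorem Av_xr {N : ℕ} {g : Cs → ℝ} (h : Dep N g) (m : Cs) :
    Av N (fun Y => g (xr Y m)) = Av N g := by
  induction N generalizing g with
  | zero => rw [Av_zero, Av_zero]; exact h _ _ (by simp)
  | succ N ih =>
    rw [Av_succ, Av_succ]
    have key : ∀ b : Bool, Av N (fun X => g (xr (update X N b) m))
        = Av N (fun X => g (update X N (xor b (m N)))) := by
      intro b
      rw [← ih (h.upd (xor b (m N)))]
      congr 1
      funext X
      congr 1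
      funext i
      by_cases hi : i = N
      · subst hi; simp [xr]
      · simp [xr, update_of_ne hi]
    rw [key, key]
    cases m N <;> simp [add_comm]

theorem Av_bit {N i : ℕ} (hi : i < N) {g : Cs → ℝ} (h : ∀ X b, g (update X i b) = g X) (b : Bool) :
    Av N (fun X => g X * ind (X i == b)) = Av N g / 2 := by
  induction N generalizing g with
  | zero => omega
  | succ N ih =>
    rw [Av_succ, Av_succ]
    by_cases hiN : i = N
    · subst hiN
      simp only [h, update_self]
      cases b <;> simp [Av_const]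
    · have key : ∀ c : Bool, Av N (fun X => g (update X N c) * ind (update X N c i == b))
          = Av N (fun X => g (update X N c)) / 2 := by
        intro c
        rw [← ih (by omega) (g := fun X => g (update X N c))]
        · simp only [update_of_ne hiN]
        · intro X b'
          rw [update_comm hiN, h]
      rw [key, key]; ring

theorem blk_succ (l z k : ℕ) (X : Cs) :
    blk l (z + 1) k X = (blk l z k X && (X (l + z) == bit k z)) := by
  simp [blk, List.range_succ, List.all_append]

theorem Av_blk {N l z k : ℕ} (hN : l + z ≤ N) {g : Cs → ℝ} (h : Dep l g) :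
    Av N (fun X => g X * ind (blk l z k X)) = Av N g / 2 ^ z := by
  induction z with
  | zero => simp [blk]
  | succ z ih =>
    simp only [blk_succ, ind_and, ← mul_assoc]
    rw [Av_bit (g := fun X => g X * ind (blk l z k X)) (by omega), ih (by omega), pow_succ,
      div_div]
    intro X b
    rw [h.upd_eq (by omega), (dep_blk l z k).upd_eq le_rfl]

theorem blk_unique {l z k k' : ℕ} {X : Cs} (hk : k < 2 ^ z) (hk' : k' < 2 ^ z)
    (h : blk l z k X = true) (h' : blk l z k' X = true) : k = k' := by
  rw [blk_iff] at h h'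
  apply Nat.eq_of_testBit_eq
  intro i
  by_cases hi : i < z
  · rw [← bit_eq, ← bit_eq, ← h i hi, h' i hi]
  · have : 2 ^ z ≤ 2 ^ i := Nat.pow_le_pow_right (by norm_num) (by omega)
    rw [Nat.testBit_lt_two_pow (by omega), Nat.testBit_lt_two_pow (by omega)]

theorem blk_exists (l z : ℕ) (X : Cs) : ∃ k < 2 ^ z, blk l z k X = true := by
  refine ⟨Nat.ofBits (fun i : Fin z => X (l + i)), Nat.ofBits_lt_two_pow _, ?_⟩
  rw [blk_iff]
  intro i hi
  rw [bit_eq, Nat.testBit_ofBits_lt _ _ hi]

theorem sum_blk (l z : ℕ) (X : Cs) : ∑ k ∈ Finset.range (2 ^ z), ind (blk l z k X) = 1 := by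
  obtain ⟨k, hk, h⟩ := blk_exists l z X
  rw [Finset.sum_eq_single k]
  · simp [h]
  · intro k' hk' hne
    cases h' : blk l z k' X
    · simp
    · exact absurd (blk_unique (Finset.mem_range.1 hk') hk h' h) hne
  · intro h'; exact absurd (Finset.mem_range.2 hk) h'

theorem exists_of_Av_lt {N : ℕ} {G : Cs → Bool} {F : Cs → ℝ} {c : ℝ}
    (h : Av N (fun X => ind (G X) * F X) < c * Av N (fun X => ind (G X))) :
    ∃ Y, G Y = true ∧ F Y < c := by
  by_contra hc
  push Not at hc
  rw [← Av_mul] at h
  refine absurd h (not_lt.2 (Av_mono N fun X => ?_))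
  cases hX : G X
  · simp
  · simpa using hc X hX

theorem cnt_eq (N : ℕ) (g : Cs → ℕ) : (cnt N g : ℝ) = 2 ^ N * Av N (fun X => (g X : ℝ)) := by
  simp only [cnt, Av, Nat.cast_list_sum, List.map_map]
  rw [mul_div_cancel₀ _ (by positivity)]
  rfl

theorem measurableSet_bit (N : ℕ) (b : Bool) : MeasurableSet {X : Cs | X N = b} :=
  (measurable_pi_apply (X := fun _ : ℕ => Bool) N) (measurableSet_singleton b)

theorem measurableSet_dep {N : ℕ} {p : Cs → Bool} (h : Dep N p) :
    MeasurableSet {X | p X = true} := by
  induction N generalizing p with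
  | zero =>
    have : ∀ X, p X = p (fun _ => false) := fun X => h _ _ (by simp)
    simp only [this]
    exact MeasurableSet.const _
  | succ N ih =>
    have : {X | p X = true} = ({X | p (update X N false) = true} ∩ {X | X N = false}) ∪
        ({X | p (update X N true) = true} ∩ {X | X N = true}) := by
      ext X
      cases hX : X N <;> simp [hX] <;> rw [← hX, update_eq_self]
    rw [this]
    have hm : ∀ b : Bool, MeasurableSet {X : Cs | X N = b} := fun b =>
      measurableSet_bit N b
    exact ((ih (h.upd false)).inter (hm _)).union ((ih (h.upd true)).inter (hm _))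

instance : IsProbabilityMeasure coin := by unfold coin; infer_instance

theorem coin_pat (s : Finset ℕ) (r : Cs) :
    coin {X | ∀ i ∈ s, X i = r i} = 2⁻¹ ^ s.card := by
  have : {X : Cs | ∀ i ∈ s, X i = r i} = Set.pi s (fun i => {r i}) := by
    ext X; simp
  rw [this, coin, Measure.infinitePi_pi _ (fun _ _ => measurableSet_singleton _)]
  simp

theorem coin_dep_aux {N : ℕ} {p : Cs → Bool} (h : Dep N p) (s : Finset ℕ) (hs : ∀ i ∈ s, N ≤ i)
    (r : Cs) : coin ({X | p X = true} ∩ {X | ∀ i ∈ s, X i = r i})
      = ENNReal.ofReal (Av N (fun X => ind (p X))) * 2⁻¹ ^ s.card := by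
  classical
  induction N generalizing p s r with
  | zero =>
    have : ∀ X, p X = p (fun _ => false) := fun X => h _ _ (by simp)
    simp only [this, Av_const]
    cases p (fun _ => false) <;> simp [coin_pat]
  | succ N ih =>
    have hNs : N ∉ s := fun hN => by have := hs N hN; omega
    have hset : ∀ b : Bool, ({X | p X = true} ∩ {X | ∀ i ∈ s, X i = r i}) ∩ {X | X N = b}
        = {X | p (update X N b) = true} ∩ {X | ∀ i ∈ insert N s, X i = update r N b i} := by
      intro b
      ext X
      simp only [Set.mem_inter_iff, Set.mem_ofPred_eq, Finset.mem_insert, forall_eq_or_imp,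
        update_self]
      have h1 : (∀ i ∈ s, X i = update r N b i) ↔ ∀ i ∈ s, X i = r i :=
        forall_congr' fun i => forall_congr' fun hi => by
          rw [update_of_ne (by rintro rfl; exact hNs hi)]
      rw [h1]
      constructor
      · rintro ⟨⟨h2, h3⟩, rfl⟩
        exact ⟨by rwa [update_eq_self], rfl, h3⟩
      · rintro ⟨h2, rfl, h3⟩
        exact ⟨⟨by rwa [update_eq_self] at h2, h3⟩, rfl⟩
    have hm : MeasurableSet {X : Cs | X N = false} :=
      measurableSet_bit N false
    rw [← measure_inter_add_sdiff _ hm]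
    have hd : ({X | p X = true} ∩ {X | ∀ i ∈ s, X i = r i}) \ {X : Cs | X N = false}
        = ({X | p X = true} ∩ {X | ∀ i ∈ s, X i = r i}) ∩ {X | X N = true} := by
      ext X; simp
    have hs' : ∀ i ∈ insert N s, N ≤ i := by
      intro i hi
      rcases Finset.mem_insert.1 hi with rfl | hi
      · exact le_rfl
      · exact (Nat.le_succ N).trans (hs i hi)
    rw [hd, hset, hset, ih (h.upd false) _ hs', ih (h.upd true) _ hs',
      Finset.card_insert_of_notMem hNs, Av_succ, ← add_mul, pow_succ', ← mul_assoc,
      ← ENNReal.ofReal_add (Av_nonneg _ fun _ => ind_nonneg _) (Av_nonneg _ fun _ => ind_nonneg _),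
      ENNReal.ofReal_div_of_pos (by norm_num)]
    simp [div_eq_mul_inv]

theorem coin_dep {N : ℕ} {p : Cs → Bool} (h : Dep N p) :
    coin {X | p X = true} = ENNReal.ofReal (Av N (fun X => ind (p X))) := by
  simpa using coin_dep_aux h ∅ (by simp) (fun _ => false)

end Pool.Agent.Lib.MP_3d42d9_lc
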