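import Mathlib
import Pool.Agent.Lib.MP_3d42d9_lc.Avg

namespace Pool.Agent.Lib.MP_3d42d9_lc

open Encodable

/-- A copy of `Primrec` used as a function property. -/
@[fun_prop]
def PR {α β : Type} [Primcodable α] [Primcodable β] (f : α → β) : Prop := Primrec f

section
variable {α β γ σ : Type} [Primcodable α] [Primcodable β] [Primcodable γ] [Primcodable σ]

theorem PR.primrec {f : α → β} (h : PR f) : Primrec f := h
theorem PR.mk {f : α → β} (h : Primrec f) : PR f := h
theorem PR.of_eq {f g : α → β} (h : PR f) (H : ∀ a, f a = g a) : PR g := Primrec.of_eq h H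

@[fun_prop] theorem PR.id' : PR (fun x : α => x) := Primrec.id
@[fun_prop] theorem PR.const' (c : β) : PR (fun _ : α => c) := Primrec.const c
@[fun_prop] theorem PR.comp' {f : β → γ} {g : α → β} (hf : PR f) (hg : PR g) :
    PR (fun x => f (g x)) := Primrec.comp hf hg
@[fun_prop] theorem PR.fst {f : α → β × γ} (hf : PR f) : PR (fun x => (f x).1) :=
  Primrec.fst.comp hf
@[fun_prop] theorem PR.snd {f : α → β × γ} (hf : PR f) : PR (fun x => (f x).2) :=
  Primrec.snd.comp hf
@[fun_prop] theorem PR.pair {f : α → β} {g : α → γ} (hf : PR f) (hg : PR g) :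
    PR (fun x => (f x, g x)) := Primrec.pair hf hg
@[fun_prop] theorem PR.add {f g : α → ℕ} (hf : PR f) (hg : PR g) : PR (fun x => f x + g x) :=
  Primrec.nat_add.comp hf hg
@[fun_prop] theorem PR.sub {f g : α → ℕ} (hf : PR f) (hg : PR g) : PR (fun x => f x - g x) :=
  Primrec.nat_sub.comp hf hg
@[fun_prop] theorem PR.mul {f g : α → ℕ} (hf : PR f) (hg : PR g) : PR (fun x => f x * g x) :=
  Primrec.nat_mul.comp hf hg
@[fun_prop] theorem PR.div {f g : α → ℕ} (hf : PR f) (hg : PR g) : PR (fun x => f x / g x) :=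
  Primrec.nat_div.comp hf hg
@[fun_prop] theorem PR.mod {f g : α → ℕ} (hf : PR f) (hg : PR g) : PR (fun x => f x % g x) :=
  Primrec.nat_mod.comp hf hg
@[fun_prop] theorem PR.pow {f g : α → ℕ} (hf : PR f) (hg : PR g) : PR (fun x => f x ^ g x) :=
  (Primrec₂.unpaired'.1 Nat.Primrec.pow).comp hf hg
@[fun_prop] theorem PR.natPair {f g : α → ℕ} (hf : PR f) (hg : PR g) :
    PR (fun x => Nat.pair (f x) (g x)) := Primrec₂.natPair.comp hf hg
@[fun_prop] theorem PR.unpair {f : α → ℕ} (hf : PR f) : PR (fun x => Nat.unpair (f x)) :=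
  Primrec.unpair.comp hf
@[fun_prop] theorem PR.encode {f : α → β} (hf : PR f) : PR (fun x => encode (f x)) :=
  Primrec.encode.comp hf
@[fun_prop] theorem PR.and {f g : α → Bool} (hf : PR f) (hg : PR g) :
    PR (fun x => (f x && g x)) := Primrec.and.comp hf hg
@[fun_prop] theorem PR.or {f g : α → Bool} (hf : PR f) (hg : PR g) :
    PR (fun x => (f x || g x)) := Primrec.or.comp hf hg
@[fun_prop] theorem PR.not {f : α → Bool} (hf : PR f) : PR (fun x => !f x) :=
  Primrec.not.comp hf
@[fun_prop] theorem PR.xor {f g : α → Bool} (hf : PR f) (hg : PR g) :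
    PR (fun x => xor (f x) (g x)) := (Primrec.dom_bool₂ Bool.xor).comp hf hg
@[fun_prop] theorem PR.toNat {f : α → Bool} (hf : PR f) : PR (fun x => (f x).toNat) :=
  (Primrec.dom_bool Bool.toNat).comp hf
@[fun_prop] theorem PR.cond {c : α → Bool} {f g : α → β} (hc : PR c) (hf : PR f) (hg : PR g) :
    PR (fun x => bif c x then f x else g x) := Primrec.cond hc hf hg
@[fun_prop] theorem PR.ble {f g : α → ℕ} (hf : PR f) (hg : PR g) :
    PR (fun x => Nat.ble (f x) (g x)) :=
  (Primrec.nat_le.decide.comp hf hg).of_eq fun x => by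
    rw [Bool.eq_iff_iff]; simp
@[fun_prop] theorem PR.blt {f g : α → ℕ} (hf : PR f) (hg : PR g) :
    PR (fun x => Nat.blt (f x) (g x)) :=
  (Primrec.nat_lt.decide.comp hf hg).of_eq fun x => by
    rw [Bool.eq_iff_iff]; simp [Nat.blt_eq]
@[fun_prop] theorem PR.beq [BEq β] [LawfulBEq β] {f g : α → β} (hf : PR f) (hg : PR g) :
    PR (fun x => f x == g x) := by
  classical
  exact (Primrec.eq.decide.comp hf hg).of_eq fun x => by
    rw [Bool.eq_iff_iff]; simp
@[fun_prop] theorem PR.cons {f : α → β} {g : α → List β} (hf : PR f) (hg : PR g) :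
    PR (fun x => f x :: g x) := Primrec.list_cons.comp hf hg
@[fun_prop] theorem PR.append {f g : α → List β} (hf : PR f) (hg : PR g) :
    PR (fun x => f x ++ g x) := Primrec.list_append.comp hf hg
@[fun_prop] theorem PR.length {f : α → List β} (hf : PR f) : PR (fun x => (f x).length) :=
  Primrec.list_length.comp hf
@[fun_prop] theorem PR.range {f : α → ℕ} (hf : PR f) : PR (fun x => List.range (f x)) :=
  Primrec.list_range.comp hf
@[fun_prop] theorem PR.some {f : α → β} (hf : PR f) : PR (fun x => some (f x)) :=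
  Primrec.option_some.comp hf
@[fun_prop] theorem PR.isSome {f : α → Option β} (hf : PR f) : PR (fun x => (f x).isSome) :=
  Primrec.option_isSome.comp hf
@[fun_prop] theorem PR.optGetD {f : α → Option β} {g : α → β} (hf : PR f) (hg : PR g) :
    PR (fun x => (f x).getD (g x)) := Primrec.option_getD.comp hf hg
@[fun_prop] theorem PR.map {f : α → List β} {g : α → β → σ} (hf : PR f)
    (hg : PR (fun p : α × β => g p.1 p.2)) : PR (fun a => (f a).map (g a)) :=
  Primrec.list_map hf hg
@[fun_prop] theorem PR.flatMap {f : α → List β} {g : α → β → List σ} (hf : PR f)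
    (hg : PR (fun p : α × β => g p.1 p.2)) : PR (fun a => (f a).flatMap (g a)) :=
  Primrec.list_flatMap hf hg
@[fun_prop] theorem PR.foldr {f : α → List β} {g : α → σ} {h : α → β → σ → σ} (hf : PR f)
    (hg : PR g) (hh : PR (fun p : α × β × σ => h p.1 p.2.1 p.2.2)) :
    PR (fun a => (f a).foldr (h a) (g a)) :=
  Primrec.list_foldr (h := fun a p => h a p.1 p.2) hf hg hh
@[fun_prop] theorem PR.sum {f : α → List ℕ} (hf : PR f) : PR (fun a => (f a).sum) := by
  have : PR (fun a => (f a).foldr (fun b s => b + s) 0) := by fun_prop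
  exact this.of_eq fun a => by induction f a <;> simp [*]
@[fun_prop] theorem PR.any {f : α → List β} {g : α → β → Bool} (hf : PR f)
    (hg : PR (fun p : α × β => g p.1 p.2)) : PR (fun a => (f a).any (g a)) := by
  have h2 : PR (fun p : α × β × Bool => g p.1 p.2.1) :=
    PR.comp' (g := fun p : α × β × Bool => (p.1, p.2.1)) hg (by fun_prop)
  have : PR (fun a => (f a).foldr (fun b s => g a b || s) false) :=
    PR.foldr hf (by fun_prop) (PR.or h2 (by fun_prop))
  exact this.of_eq fun a => by induction f a <;> simp [*]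
@[fun_prop] theorem PR.all {f : α → List β} {g : α → β → Bool} (hf : PR f)
    (hg : PR (fun p : α × β => g p.1 p.2)) : PR (fun a => (f a).all (g a)) := by
  have h2 : PR (fun p : α × β × Bool => g p.1 p.2.1) :=
    PR.comp' (g := fun p : α × β × Bool => (p.1, p.2.1)) hg (by fun_prop)
  have : PR (fun a => (f a).foldr (fun b s => g a b && s) true) :=
    PR.foldr hf (by fun_prop) (PR.and h2 (by fun_prop))
  exact this.of_eq fun a => by induction f a <;> simp [*]
@[fun_prop] theorem PR.filter {f : α → List β} {g : α → β → Bool} (hf : PR f)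
    (hg : PR (fun p : α × β => g p.1 p.2)) : PR (fun a => (f a).filter (g a)) := by
  have h2 : PR (fun p : α × β × List β => g p.1 p.2.1) :=
    PR.comp' (g := fun p : α × β × List β => (p.1, p.2.1)) hg (by fun_prop)
  have : PR (fun a => (f a).foldr (fun b s => bif g a b then b :: s else s) []) :=
    PR.foldr hf (by fun_prop) (PR.cond h2 (by fun_prop) (by fun_prop))
  exact this.of_eq fun a => by
    induction f a with
    | nil => simp
    | cons b l ih => cases h : g a b <;> simp [h, ih]
@[fun_prop] theorem PR.toC {f : α → List Bool} {g : α → ℕ} (hf : PR f) (hg : PR g) :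
    PR (fun a => toC (f a) (g a)) := (Primrec.list_getD false).comp hf hg
@[fun_prop] theorem PR.bit {f g : α → ℕ} (hf : PR f) (hg : PR g) :
    PR (fun a => bit (f a) (g a)) := by unfold MP_3d42d9_lc.bit; fun_prop
@[fun_prop] theorem PR.pre {n : α → ℕ} {X : α → Cs} (hn : PR n)
    (hX : PR (fun p : α × ℕ => X p.1 p.2)) : PR (fun a => pre (n a) (X a)) := by
  unfold MP_3d42d9_lc.pre; fun_prop
@[fun_prop] theorem PR.xr {Y m : α → Cs} {i : α → ℕ}
    (hY : PR (fun p : α × ℕ => Y p.1 p.2)) (hm : PR (fun p : α × ℕ => m p.1 p.2)) (hi : PR i) :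
    PR (fun a => xr (Y a) (m a) (i a)) := by
  unfold MP_3d42d9_lc.xr
  exact PR.xor (PR.comp' (g := fun a => (a, i a)) hY (by fun_prop))
    (PR.comp' (g := fun a => (a, i a)) hm (by fun_prop))
@[fun_prop] theorem PR.blk {l z k : α → ℕ} {X : α → Cs} (hl : PR l) (hz : PR z) (hk : PR k)
    (hX : PR (fun p : α × ℕ => X p.1 p.2)) : PR (fun a => blk (l a) (z a) (k a) (X a)) := by
  unfold MP_3d42d9_lc.blk
  refine PR.all (by fun_prop) (PR.beq ?_ (by fun_prop))
  exact PR.comp' (g := fun p : α × ℕ => (p.1, l p.1 + p.2)) hX (by fun_prop)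

theorem pr_allStr : PR allStr := by
  have : PR (fun n : ℕ => (Nat.rec [[]]
      (fun _ L => L.flatMap (fun l => [l ++ [false], l ++ [true]])) n : List (List Bool))) := by
    refine Primrec.nat_rec₁ _ ?_
    change PR (fun p : ℕ × List (List Bool) => p.2.flatMap (fun l => [l ++ [false], l ++ [true]]))
    fun_prop
  exact this.of_eq fun n => by induction n <;> simp [allStr, *]

@[fun_prop] theorem PR.allStr {f : α → ℕ} (hf : PR f) : PR (fun a => allStr (f a)) :=
  PR.comp' pr_allStr hf

theorem PR.cnt {N : α → ℕ} {g : α → Cs → ℕ} (hN : PR N)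
    (hg : PR (fun p : α × List Bool => g p.1 (MP_3d42d9_lc.toC p.2))) :
    PR (fun a => cnt (N a) (g a)) := by
  unfold MP_3d42d9_lc.cnt
  exact PR.sum (PR.map (by fun_prop) hg)

end

end Pool.Agent.Lib.MP_3d42d9_lc
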