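import Mathlib
import Pool.Agent.Lib.MP_3d42d9_lc.PR

namespace Pool.Agent.Lib.MP_3d42d9_lc

open Encodable Filter

/-- `g` simulates `F` from finite initial segments of the oracle. -/
def Sim (A : Cs) (F : ℕ →. ℕ) (g : List Bool → ℕ →. ℕ) : Prop :=
  (∀ j x y, y ∈ g (pre j A) x → y ∈ F x) ∧ ∀ x y, y ∈ F x → ∀ᶠ j in atTop, y ∈ g (pre j A) x

theorem sim_tot (A : Cs) {F : ℕ →. ℕ} (hF : Partrec F) :
    ∃ g : List Bool → ℕ →. ℕ, Partrec₂ g ∧ Sim A F g :=
  ⟨fun _ x => F x, hF.comp Computable.snd, fun _ _ _ h => h,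
    fun _ _ h => Eventually.of_forall fun _ => h⟩

theorem exists_sim (A : Cs) {F : ℕ →. ℕ} (hF : Nat.RecursiveIn {oracle A} F) :
    ∃ g : List Bool → ℕ →. ℕ, Partrec₂ g ∧ Sim A F g := by
  induction hF with
  | zero => exact sim_tot A (Partrec.nat_iff.2 Nat.Partrec.zero)
  | succ => exact sim_tot A (Partrec.nat_iff.2 Nat.Partrec.succ)
  | left => exact sim_tot A (Partrec.nat_iff.2 Nat.Partrec.left)
  | right => exact sim_tot A (Partrec.nat_iff.2 Nat.Partrec.right)
  | oracle g hg =>
    obtain rfl : g = oracle A := hg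
    refine ⟨fun l x => ((l[x]?.map Bool.toNat : Option ℕ) : Part ℕ), ?_, ?_, ?_⟩
    · exact Computable.ofOption (Primrec.option_map Primrec.list_getElem?
        ((Primrec.dom_bool Bool.toNat).comp Primrec.snd).to₂).to_comp
    · intro j x y h
      simp only [Part.mem_coe, Option.mem_def, Option.map_eq_some_iff] at h
      obtain ⟨b, hb, rfl⟩ := h
      simp only [pre, List.getElem?_map, Option.map_eq_some_iff] at hb
      obtain ⟨i, hi, rfl⟩ := hb
      obtain rfl : i = x := by
        rw [List.getElem?_eq_some_iff] at hi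
        obtain ⟨_, hi⟩ := hi
        simpa using hi.symm
      cases h : A i <;> simp [oracle, h]
    · intro x y h
      filter_upwards [eventually_gt_atTop x] with j hj
      simp only [oracle, Part.mem_some_iff] at h
      subst h
      cases h : A x <;> simp [pre, hj, h]
  | pair _ _ ihf ihh =>
    obtain ⟨gf, pf, sf, cf⟩ := ihf
    obtain ⟨gh, ph, sh, ch⟩ := ihh
    refine ⟨fun l x => (gf l x).bind fun a => (gh l x).map fun b => Nat.pair a b, ?_, ?_, ?_⟩
    · have h1 : Partrec (fun q : (List Bool × ℕ) × ℕ =>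
          (gh q.1.1 q.1.2).map fun b => Nat.pair q.2 b) :=
        Partrec.map (ph.comp (Computable.fst.comp Computable.fst)
          (Computable.snd.comp Computable.fst))
          (Primrec₂.natPair.comp (Primrec.snd.comp Primrec.fst) Primrec.snd).to_comp.to₂
      exact Partrec.bind pf h1.to₂
    · intro j x y h
      simp only [Part.mem_bind_iff, Part.mem_map_iff] at h
      obtain ⟨a, ha, b, hb, rfl⟩ := h
      simp only [Seq.seq, Part.map_eq_map, Part.mem_bind_iff, Part.mem_map_iff]
      exact ⟨_, ⟨a, sf _ _ _ ha, rfl⟩, b, sh _ _ _ hb, rfl⟩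
    · intro x y h
      simp only [Seq.seq, Part.map_eq_map, Part.mem_bind_iff, Part.mem_map_iff] at h
      obtain ⟨_, ⟨a, ha, rfl⟩, b, hb, rfl⟩ := h
      filter_upwards [cf _ _ ha, ch _ _ hb] with j h1 h2
      simp only [Part.mem_bind_iff, Part.mem_map_iff]
      exact ⟨a, h1, b, h2, rfl⟩
  | comp _ _ ihf ihh =>
    obtain ⟨gf, pf, sf, cf⟩ := ihf
    obtain ⟨gh, ph, sh, ch⟩ := ihh
    refine ⟨fun l x => (gh l x).bind (gf l), ?_, ?_, ?_⟩
    · exact Partrec.bind ph (pf.comp (Computable.fst.comp Computable.fst) Computable.snd).to₂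
    · intro j x y h
      simp only [Part.mem_bind_iff, Part.bind_eq_bind] at h ⊢
      obtain ⟨a, ha, hb⟩ := h
      exact ⟨a, sh _ _ _ ha, sf _ _ _ hb⟩
    · intro x y h
      simp only [Part.mem_bind_iff, Part.bind_eq_bind] at h ⊢
      obtain ⟨a, ha, hb⟩ := h
      filter_upwards [ch _ _ ha, cf _ _ hb] with j h1 h2
      exact ⟨a, h1, h2⟩
  | @prec f h _ _ ihf ihh =>
    obtain ⟨gf, pf, sf, cf⟩ := ihf
    obtain ⟨gh, ph, sh, ch⟩ := ihh
    refine ⟨fun l p => Nat.rec (gf l p.unpair.1)
      (fun y IH => IH.bind fun i => gh l (Nat.pair p.unpair.1 (Nat.pair y i))) p.unpair.2,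
      ?_, ?_, ?_⟩
    · refine Partrec.nat_rec (f := fun a : List Bool × ℕ => a.2.unpair.2)
        (g := fun a : List Bool × ℕ => gf a.1 a.2.unpair.1)
        (h := fun a q => gh a.1 (Nat.pair a.2.unpair.1 (Nat.pair q.1 q.2))) ?_ ?_ ?_
      · exact (PR.primrec (by fun_prop)).to_comp
      · exact pf.comp Computable.fst (PR.primrec (by fun_prop)).to_comp
      · have h1 : PR (fun q : (List Bool × ℕ) × ℕ × ℕ =>
            Nat.pair q.1.2.unpair.1 (Nat.pair q.2.1 q.2.2)) := by fun_prop
        exact (ph.comp (Computable.fst.comp Computable.fst) h1.primrec.to_comp).to₂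
    · intro j x
      simp only
      generalize x.unpair.1 = a
      generalize x.unpair.2 = n
      induction n with
      | zero => exact fun y hy => sf _ _ _ hy
      | succ n ih =>
        intro y hy
        simp only [Part.mem_bind_iff, Part.bind_eq_bind] at hy ⊢
        obtain ⟨i, hi, hy⟩ := hy
        exact ⟨i, ih i hi, sh _ _ _ hy⟩
    · intro x
      simp only
      generalize x.unpair.1 = a
      generalize x.unpair.2 = n
      induction n with
      | zero => exact fun y hy => cf _ _ hy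
      | succ n ih =>
        intro y hy
        simp only [Part.mem_bind_iff, Part.bind_eq_bind] at hy ⊢
        obtain ⟨i, hi, hy⟩ := hy
        filter_upwards [ih i hi, ch _ _ hy] with j h1 h2
        exact ⟨i, h1, h2⟩
  | @rfind f _ ihf =>
    obtain ⟨gf, pf, sf, cf⟩ := ihf
    refine ⟨fun l a => Nat.rfind fun n => (gf l (Nat.pair a n)).map (fun m => decide (m = 0)),
      ?_, ?_, ?_⟩
    · refine Partrec.rfind (p := fun (a : List Bool × ℕ) n =>
        (gf a.1 (Nat.pair a.2 n)).map (fun m => decide (m = 0))) ?_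
      have h1 : PR (fun q : (List Bool × ℕ) × ℕ => Nat.pair q.1.2 q.2) := by fun_prop
      have h2 : Partrec (fun q : (List Bool × ℕ) × ℕ =>
          (gf q.1.1 (Nat.pair q.1.2 q.2)).map (fun m => decide (m = 0))) :=
        Partrec.map (pf.comp (Computable.fst.comp Computable.fst) h1.primrec.to_comp)
          (Primrec.eq.decide.comp Primrec.snd (Primrec.const 0)).to_comp.to₂
      exact h2.to₂
    · intro j x y h
      simp only [Nat.mem_rfind, Part.mem_map_iff, Part.map_eq_map] at h ⊢
      obtain ⟨⟨a, ha, h1⟩, h2⟩ := h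
      refine ⟨⟨a, sf _ _ _ ha, h1⟩, fun {m} hm => ?_⟩
      obtain ⟨b, hb, h3⟩ := h2 hm
      exact ⟨b, sf _ _ _ hb, h3⟩
    · intro x y h
      simp only [Nat.mem_rfind, Part.mem_map_iff, Part.map_eq_map] at h ⊢
      obtain ⟨⟨a, ha, h1⟩, h2⟩ := h
      have h3 : ∀ᶠ j in atTop, ∀ m ∈ Finset.range y,
          ∃ b ∈ gf (pre j A) (Nat.pair x m), decide (b = 0) = false := by
        rw [eventually_all_finset]
        intro m hm
        obtain ⟨b, hb, h3⟩ := h2 (Finset.mem_range.1 hm)
        filter_upwards [cf _ _ hb] with j hj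
        exact ⟨b, hj, h3⟩
      filter_upwards [cf _ _ ha, h3] with j h4 h5
      exact ⟨⟨a, h4, h1⟩, fun {m} hm => h5 m (Finset.mem_range.2 hm)⟩

open Nat.Partrec Nat.Partrec.Code in
/-- Normal form of a set enumerated from an oracle. -/
theorem exists_code_of_recursiveIn (A : Cs) {f : ℕ × List Bool →. Unit}
    (hf : RecursiveIn {oracle A} f) :
    ∃ c : Code, ∀ n ρ, (f (n, ρ)).Dom ↔ ∃ j s,
      (evaln s c (Nat.pair (encode (pre j A)) (Nat.pair n (encode ρ)))).isSome = true := by
  obtain ⟨g, pg, sg, cg⟩ := exists_sim A hf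
  obtain ⟨c, hc⟩ := exists_code.1 pg
  have hc' : ∀ l x y, y ∈ eval c (Nat.pair (encode l) x) ↔ y ∈ g l x := by
    intro l x y
    rw [hc]
    have : Nat.pair (encode l) x = encode (l, x) := rfl
    simp only [this, encodek]
    simp
  have hF : ∀ n ρ y, y ∈ (Part.bind (decode (α := ℕ × List Bool) (Nat.pair n (encode ρ)))
      fun a => (f a).map encode) ↔ (f (n, ρ)).Dom ∧ y = 0 := by
    intro n ρ y
    have : Nat.pair n (encode ρ) = encode (n, ρ) := rfl
    simp only [this, encodek]
    simp [Part.dom_iff_mem, eq_comm]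
    constructor
    · rintro ⟨a, ha, rfl⟩; exact ⟨⟨a, ha⟩, rfl⟩
    · rintro ⟨⟨a, ha⟩, rfl⟩; exact ⟨a, ha, rfl⟩
  refine ⟨c, fun n ρ => ⟨fun h => ?_, ?_⟩⟩
  · obtain ⟨j, hj⟩ := (cg _ 0 ((hF n ρ 0).2 ⟨h, rfl⟩)).exists
    obtain ⟨s, hs⟩ := evaln_complete.1 ((hc' _ _ _).2 hj)
    exact ⟨j, s, Option.isSome_iff_exists.2 ⟨0, hs⟩⟩
  · rintro ⟨j, s, hs⟩
    obtain ⟨y, hy⟩ := Option.isSome_iff_exists.1 hs
    exact ((hF n ρ y).1 (sg _ _ _ ((hc' _ _ _).1 (evaln_sound hy)))).1

theorem recIn_of_pr {A : Cs} {f : ℕ → ℕ} (hf : PR f) :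
    Nat.RecursiveIn {oracle A} (fun n => Part.some (f n)) :=
  (Primrec.nat_iff.1 hf).recursiveIn

theorem recIn_comp_tot {A : Cs} {f g : ℕ → ℕ}
    (hf : Nat.RecursiveIn {oracle A} (fun n => Part.some (f n)))
    (hg : Nat.RecursiveIn {oracle A} (fun n => Part.some (g n))) :
    Nat.RecursiveIn {oracle A} (fun n => Part.some (f (g n))) :=
  (Nat.RecursiveIn.comp hf hg).of_eq fun n => by simp

theorem recIn_pair_tot {A : Cs} {f g : ℕ → ℕ}
    (hf : Nat.RecursiveIn {oracle A} (fun n => Part.some (f n)))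
    (hg : Nat.RecursiveIn {oracle A} (fun n => Part.some (g n))) :
    Nat.RecursiveIn {oracle A} (fun n => Part.some (Nat.pair (f n) (g n))) :=
  (Nat.RecursiveIn.pair hf hg).of_eq fun n => by simp [Seq.seq]

theorem recIn_pre (A : Cs) :
    Nat.RecursiveIn {oracle A} (fun j => Part.some (encode (pre j A))) := by
  have ho : Nat.RecursiveIn {oracle A} (fun n => Part.some (if A n then 1 else 0)) :=
    Nat.RecursiveIn.oracle _ rfl
  let φ : ℕ → ℕ := fun p =>
    encode (((decode (α := List Bool) p.unpair.1).getD []) ++ [p.unpair.2 == 1])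
  have hφ : PR φ := by
    have : PR (fun p : ℕ => decode (α := List Bool) p.unpair.1) :=
      Primrec.decode.comp (PR.primrec (by fun_prop))
    unfold φ
    fun_prop
  have hh := recIn_comp_tot (recIn_of_pr hφ) (recIn_pair_tot
    (recIn_of_pr (f := fun p : ℕ => p.unpair.2.unpair.2) (by fun_prop))
    (recIn_comp_tot ho (recIn_of_pr (f := fun p : ℕ => p.unpair.2.unpair.1) (by fun_prop))))
  have hp := Nat.RecursiveIn.prec
    (recIn_of_pr (A := A) (f := fun _ => encode ([] : List Bool)) (by fun_prop)) hh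
  refine (Nat.RecursiveIn.comp hp (recIn_of_pr (f := fun j => Nat.pair 0 j) (by fun_prop))).of_eq ?_
  intro j
  simp only [Part.bind_eq_bind, Part.bind_some, Nat.unpair_pair]
  induction j with
  | zero => simp [pre]
  | succ j ih =>
    simp only [ih]
    simp only [Part.bind_some, φ, Nat.unpair_pair, encodek, Option.getD_some]
    congr 2
    cases h : A j <;> simp [pre, List.range_succ, h]

/-- A family of open sets described by a primitive recursive relation on initial segments of the
oracle is enumerated from the oracle. -/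
theorem exists_recursiveIn (A : Cs) {Ψ : List Bool → ℕ × List Bool → Bool}
    (hΨ : PR (fun p : List Bool × ℕ × List Bool => Ψ p.1 p.2)) :
    ∃ f : ℕ × List Bool →. Unit, RecursiveIn {oracle A} f ∧
      ∀ a, (f a).Dom ↔ ∃ j, Ψ (pre j A) a = true := by
  refine ⟨fun a => ⟨∃ j, Ψ (pre j A) a = true, fun _ => ()⟩, ?_, fun a => Iff.rfl⟩
  let ψ : ℕ → ℕ := fun p =>
    bif (decode (α := ℕ × List Bool) p.unpair.1).isSome &&
      Ψ ((decode (α := List Bool) p.unpair.2).getD [])
        ((decode (α := ℕ × List Bool) p.unpair.1).getD (0, [])) then 0 else 1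
  have hψ : PR ψ := by
    have h1 : PR (fun p : ℕ => decode (α := List Bool) p.unpair.2) :=
      Primrec.decode.comp (PR.primrec (by fun_prop))
    have h2 : PR (fun p : ℕ => decode (α := ℕ × List Bool) p.unpair.1) :=
      Primrec.decode.comp (PR.primrec (by fun_prop))
    have h3 : PR (fun p : ℕ => Ψ ((decode (α := List Bool) p.unpair.2).getD [])
        ((decode (α := ℕ × List Bool) p.unpair.1).getD (0, []))) :=
      PR.comp' (g := fun p : ℕ => (((decode (α := List Bool) p.unpair.2).getD []),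
        ((decode (α := ℕ × List Bool) p.unpair.1).getD (0, [])))) hΨ (by fun_prop)
    unfold ψ
    fun_prop
  have hT := recIn_comp_tot (recIn_of_pr hψ) (recIn_pair_tot
    (recIn_of_pr (f := fun p : ℕ => p.unpair.1) (by fun_prop))
    (recIn_comp_tot (recIn_pre A) (recIn_of_pr (f := fun p : ℕ => p.unpair.2) (by fun_prop))))
  refine (Nat.RecursiveIn.comp Nat.RecursiveIn.zero (Nat.RecursiveIn.rfind hT)).of_eq ?_
  intro m
  apply Part.ext
  intro y
  simp only [Part.bind_eq_bind, Part.mem_bind_iff, Nat.unpair_pair, ψ, encodek, Option.getD_some,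
    Part.map_eq_map, Part.map_some, Part.mem_map_iff, Part.mem_coe]
  constructor
  · rintro ⟨j, hj, hy⟩
    have h1 := Nat.rfind_spec hj
    cases hd : decode (α := ℕ × List Bool) m with
    | none => simp [hd] at h1
    | some a =>
      refine ⟨a, rfl, (), ⟨⟨j, ?_⟩, rfl⟩, ?_⟩
      · cases h2 : Ψ (pre j A) a
        · simp [hd, h2] at h1
        · rfl
      · exact (Part.mem_some_iff.1 hy).symm
  · rintro ⟨a, ha, u, ⟨⟨j, hj⟩, -⟩, rfl⟩
    have ha' : decode (α := ℕ × List Bool) m = some a := ha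
    obtain ⟨n, hn, -⟩ := Nat.rfind_min' (p := fun j => decide ((bif (some a).isSome &&
      Ψ (pre j A) ((some a).getD (0, [])) then 0 else 1 : ℕ) = 0)) (m := j) (by simp [hj])
    exact ⟨n, by rw [ha']; exact hn, Part.mem_some_iff.2 rfl⟩

end Pool.Agent.Lib.MP_3d42d9_lc
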