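import Mathlib
import Pool.Agent.Lib.MP_3d42d9_lc.Oracle

-- part Pool.Agent.Lib.MP_3d42d9_lc.Univ
section

namespace Pool.Agent.Lib.MP_3d42d9_lc

open Encodable Nat.Partrec Nat.Partrec.Code

def hit (q s : ℕ) (x ρ : List Bool) : Bool :=
  (evaln s (Denumerable.ofNat Code q.unpair.1)
    (Nat.pair (encode x) (Nat.pair (2 * q + 8) (encode ρ)))).isSome

def raw (q s : ℕ) (X Z : Cs) : Bool :=
  (List.range (s + 1)).any fun j => (List.range (s + 1)).any fun i => hit q s (pre j X) (pre i Z)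

def good (q s : ℕ) (X : Cs) : Bool :=
  Nat.ble (cnt s (fun Z => (raw q s X Z).toNat) * 2 ^ (2 * q + 8)) (2 ^ s)

def EE (q s : ℕ) (X Z : Cs) : Bool :=
  (List.range (s + 1)).any fun r => good q r X && raw q r X Z

def Un (s : ℕ) (X Z : Cs) : Bool := (List.range s).any fun q => EE q s X Z

def Et (q s : ℕ) (X Z : Cs) : Bool :=
  Nat.blt q s && (bif q == 0 then Un s (fun _ => false) X else EE (q - 1) s X Z)

def Wn (s : ℕ) (X : Cs) : ℕ :=
  ((List.range s).map fun q => 2 ^ q * cnt s (fun Z => (Et q s X Z).toNat)).sum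

noncomputable def w (s : ℕ) (X : Cs) : ℝ := Wn s X / 2 ^ s

noncomputable def nu (N : ℕ) (g : ℕ → Cs → Bool) : ℝ :=
  ∑ q ∈ Finset.range N, 2 ^ q * Av N (fun Z => ind (g q Z))

section
variable {α : Type} [Primcodable α]

@[fun_prop] theorem PR.hit {q s : α → ℕ} {x ρ : α → List Bool} (hq : PR q) (hs : PR s)
    (hx : PR x) (hρ : PR ρ) : PR (fun a => hit (q a) (s a) (x a) (ρ a)) := by
  unfold MP_3d42d9_lc.hit
  have h1 : PR (fun a => Denumerable.ofNat Code (q a).unpair.1) :=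
    (Primrec.ofNat Code).comp (PR.primrec (by fun_prop))
  have h2 : PR (fun a => ((s a, Denumerable.ofNat Code (q a).unpair.1),
    (Nat.pair (Encodable.encode (x a)) (Nat.pair (2 * q a + 8) (Encodable.encode (ρ a)))))) := by
    fun_prop
  exact PR.isSome (primrec_evaln.comp h2)

@[fun_prop] theorem PR.raw {q s : α → ℕ} {X Z : α → Cs} (hq : PR q) (hs : PR s)
    (hX : PR (fun p : α × ℕ => X p.1 p.2)) (hZ : PR (fun p : α × ℕ => Z p.1 p.2)) :
    PR (fun a => raw (q a) (s a) (X a) (Z a)) := by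
  unfold MP_3d42d9_lc.raw
  fun_prop

@[fun_prop] theorem PR.good {q s : α → ℕ} {X : α → Cs} (hq : PR q) (hs : PR s)
    (hX : PR (fun p : α × ℕ => X p.1 p.2)) : PR (fun a => good (q a) (s a) (X a)) := by
  unfold MP_3d42d9_lc.good
  have : PR (fun a => MP_3d42d9_lc.cnt (s a)
      (fun Z => (MP_3d42d9_lc.raw (q a) (s a) (X a) Z).toNat)) :=
    PR.cnt hs (by fun_prop)
  fun_prop

@[fun_prop] theorem PR.EE {q s : α → ℕ} {X Z : α → Cs} (hq : PR q) (hs : PR s)
    (hX : PR (fun p : α × ℕ => X p.1 p.2)) (hZ : PR (fun p : α × ℕ => Z p.1 p.2)) :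
    PR (fun a => EE (q a) (s a) (X a) (Z a)) := by
  unfold MP_3d42d9_lc.EE
  fun_prop

@[fun_prop] theorem PR.Un {s : α → ℕ} {X Z : α → Cs} (hs : PR s)
    (hX : PR (fun p : α × ℕ => X p.1 p.2)) (hZ : PR (fun p : α × ℕ => Z p.1 p.2)) :
    PR (fun a => Un (s a) (X a) (Z a)) := by
  unfold MP_3d42d9_lc.Un
  fun_prop

@[fun_prop] theorem PR.Et {q s : α → ℕ} {X Z : α → Cs} (hq : PR q) (hs : PR s)
    (hX : PR (fun p : α × ℕ => X p.1 p.2)) (hZ : PR (fun p : α × ℕ => Z p.1 p.2)) :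
    PR (fun a => Et (q a) (s a) (X a) (Z a)) := by
  unfold MP_3d42d9_lc.Et
  fun_prop

@[fun_prop] theorem PR.Wn {s : α → ℕ} {X : α → Cs} (hs : PR s)
    (hX : PR (fun p : α × ℕ => X p.1 p.2)) : PR (fun a => Wn (s a) (X a)) := by
  unfold MP_3d42d9_lc.Wn
  have : PR (fun p : α × ℕ => MP_3d42d9_lc.cnt (s p.1)
      (fun Z => (MP_3d42d9_lc.Et p.2 (s p.1) (X p.1) Z).toNat)) :=
    PR.cnt (by fun_prop) (by fun_prop)
  exact PR.sum (PR.map (by fun_prop) (PR.mul (by fun_prop) this))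

end

theorem raw_iff {q s : ℕ} {X Z : Cs} :
    raw q s X Z = true ↔ ∃ j ≤ s, ∃ i ≤ s, hit q s (pre j X) (pre i Z) = true := by
  simp [raw]

theorem hit_mono {q s s' : ℕ} {x ρ : List Bool} (h : s ≤ s') (H : hit q s x ρ = true) :
    hit q s' x ρ = true := by
  unfold hit at H ⊢
  obtain ⟨y, hy⟩ := Option.isSome_iff_exists.1 H
  exact Option.isSome_iff_exists.2 ⟨y, evaln_mono h hy⟩

theorem raw_mono {q s s' : ℕ} {X Z : Cs} (h : s ≤ s') (H : raw q s X Z = true) :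
    raw q s' X Z = true := by
  rw [raw_iff] at H ⊢
  obtain ⟨j, hj, i, hi, H⟩ := H
  exact ⟨j, hj.trans h, i, hi.trans h, hit_mono h H⟩

theorem raw_depX (q s : ℕ) (Z : Cs) : Dep s (fun X => raw q s X Z) := by
  intro X Y H
  rw [Bool.eq_iff_iff, raw_iff, raw_iff]
  refine exists_congr fun j => and_congr_right fun hj => ?_
  rw [(dep_pre j).mono hj X Y H]

theorem raw_depZ (q s : ℕ) (X : Cs) : Dep s (raw q s X) := by
  intro Z Y H
  rw [Bool.eq_iff_iff, raw_iff, raw_iff]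
  refine exists_congr fun j => and_congr_right fun _ => exists_congr fun i =>
    and_congr_right fun hi => ?_
  rw [(dep_pre i).mono hi Z Y H]

theorem good_iff {q s : ℕ} {X : Cs} :
    good q s X = true ↔ Av s (fun Z => ind (raw q s X Z)) ≤ (1 / 2) ^ (2 * q + 8) := by
  unfold good
  rw [Nat.ble_eq, ← Nat.cast_le (α := ℝ)]
  push_cast
  rw [cnt_eq]
  simp only [ind_toNat]
  rw [one_div, inv_pow, ← one_div, le_div_iff₀ (by positivity), mul_assoc,
    mul_le_iff_le_one_right (by positivity)]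

theorem good_dep (q s : ℕ) : Dep s (good q s) := by
  intro X Y H
  unfold good
  have : (fun Z => (raw q s X Z).toNat) = fun Z => (raw q s Y Z).toNat := by
    funext Z; exact congrArg _ (raw_depX q s Z X Y H)
  rw [this]

theorem EE_iff {q s : ℕ} {X Z : Cs} :
    EE q s X Z = true ↔ ∃ r ≤ s, good q r X = true ∧ raw q r X Z = true := by
  simp [EE]

theorem EE_mono {q s s' : ℕ} {X Z : Cs} (h : s ≤ s') (H : EE q s X Z = true) :
    EE q s' X Z = true := by
  rw [EE_iff] at H ⊢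
  obtain ⟨r, hr, H⟩ := H
  exact ⟨r, hr.trans h, H⟩

theorem EE_depX (q s : ℕ) (Z : Cs) : Dep s (fun X => EE q s X Z) := by
  intro X Y H
  rw [Bool.eq_iff_iff, EE_iff, EE_iff]
  refine exists_congr fun r => and_congr_right fun hr => ?_
  rw [(good_dep q r).mono hr X Y H,
    show raw q r X Z = raw q r Y Z from (raw_depX q r Z).mono hr X Y H]

theorem EE_depZ (q s : ℕ) (X : Cs) : Dep s (EE q s X) := by
  intro Z Y H
  rw [Bool.eq_iff_iff, EE_iff, EE_iff]
  refine exists_congr fun r => and_congr_right fun hr => ?_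
  rw [(raw_depZ q r X).mono hr Z Y H]

theorem EE_bound {q s N : ℕ} (hN : s ≤ N) (X : Cs) :
    Av N (fun Z => ind (EE q s X Z)) ≤ (1 / 2) ^ (2 * q + 8) := by
  classical
  by_cases h : ∃ r ≤ s, good q r X = true
  · obtain ⟨r, hr, hg⟩ := h
    have h1 : good q (Nat.findGreatest (fun r => good q r X = true) s) X = true :=
      Nat.findGreatest_spec (P := fun r => good q r X = true) hr hg
    set r0 := Nat.findGreatest (fun r => good q r X = true) s with hr0
    have h2 : r0 ≤ s := Nat.findGreatest_le s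
    rw [good_iff, ← Av_stab ((raw_depZ q r0 X).comp ind) (h2.trans hN)] at h1
    refine le_trans (Av_mono N fun Z => ind_mono fun hZ => ?_) h1
    obtain ⟨r', hr', hg', hZ⟩ := EE_iff.1 hZ
    exact raw_mono (Nat.le_findGreatest (P := fun r => good q r X = true) hr' hg') hZ
  · have : ∀ Z, EE q s X Z = false := by
      intro Z
      rw [← Bool.not_eq_true, EE_iff]
      rintro ⟨r, hr, hg, -⟩
      exact h ⟨r, hr, hg⟩
    simp [this, Av_const]

theorem Un_iff {s : ℕ} {X Z : Cs} : Un s X Z = true ↔ ∃ q < s, EE q s X Z = true := by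
  simp [Un]

theorem Un_mono {s s' : ℕ} {X Z : Cs} (h : s ≤ s') (H : Un s X Z = true) : Un s' X Z = true := by
  rw [Un_iff] at H ⊢
  obtain ⟨q, hq, H⟩ := H
  exact ⟨q, hq.trans_le h, EE_mono h H⟩

theorem Un_depX (s : ℕ) (Z : Cs) : Dep s (fun X => Un s X Z) := by
  intro X Y H
  rw [Bool.eq_iff_iff, Un_iff, Un_iff]
  refine exists_congr fun q => and_congr_right fun _ => ?_
  rw [show EE q s X Z = EE q s Y Z from EE_depX q s Z X Y H]

theorem Un_depZ (s : ℕ) (X : Cs) : Dep s (Un s X) := by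
  intro Z Y H
  rw [Bool.eq_iff_iff, Un_iff, Un_iff]
  refine exists_congr fun q => and_congr_right fun _ => ?_
  rw [EE_depZ q s X Z Y H]

theorem Un_bound {s N : ℕ} (hN : s ≤ N) (X : Cs) : Av N (fun Z => ind (Un s X Z)) ≤ 1 / 128 := by
  have h1 : ∀ Z, ind (Un s X Z) ≤ ∑ q ∈ Finset.range s, ind (EE q s X Z) := by
    intro Z
    cases h : Un s X Z
    · exact Finset.sum_nonneg fun _ _ => ind_nonneg _
    · obtain ⟨q, hq, H⟩ := Un_iff.1 h
      have := Finset.single_le_sum (f := fun q => ind (EE q s X Z)) (fun _ _ => ind_nonneg _)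
        (Finset.mem_range.2 hq)
      simpa [H] using this
  refine (Av_mono N h1).trans ?_
  rw [Av_sum]
  have h2 : ∀ q ∈ Finset.range s, Av N (fun Z => ind (EE q s X Z)) ≤ (1 / 256) * (1 / 2) ^ q := by
    intro q _
    refine (EE_bound hN X).trans ?_
    have : ((1 : ℝ) / 2) ^ q ≤ 1 := pow_le_one₀ (by norm_num) (by norm_num)
    have h0 : 0 ≤ ((1 : ℝ) / 2) ^ q := by positivity
    rw [two_mul, pow_add, pow_add]
    nlinarith
  refine (Finset.sum_le_sum h2).trans ?_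
  rw [← Finset.mul_sum]
  have := sum_geometric_two_le s
  linarith

theorem Et_iff {q s : ℕ} {X Z : Cs} : Et q s X Z = true ↔
    q < s ∧ ((q = 0 ∧ Un s (fun _ => false) X = true) ∨ (q ≠ 0 ∧ EE (q - 1) s X Z = true)) := by
  by_cases h : q = 0 <;> simp [Et, h, Nat.blt_eq]

theorem Et_mono {q s s' : ℕ} {X Z : Cs} (h : s ≤ s') (H : Et q s X Z = true) :
    Et q s' X Z = true := by
  rw [Et_iff] at H ⊢
  obtain ⟨hq, H | H⟩ := H
  · exact ⟨hq.trans_le h, Or.inl ⟨H.1, Un_mono h H.2⟩⟩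
  · exact ⟨hq.trans_le h, Or.inr ⟨H.1, EE_mono h H.2⟩⟩

theorem Et_depX (q s : ℕ) (Z : Cs) : Dep s (fun X => Et q s X Z) := by
  intro X Y H
  rw [Bool.eq_iff_iff, Et_iff, Et_iff,
    show EE (q - 1) s X Z = EE (q - 1) s Y Z from EE_depX _ s Z X Y H, Un_depZ s _ X Y H]

theorem Et_depZ (q s : ℕ) (X : Cs) : Dep s (Et q s X) := by
  intro Z Y H
  rw [Bool.eq_iff_iff, Et_iff, Et_iff, EE_depZ _ s X Z Y H]

theorem nu_mono (N : ℕ) {g h : ℕ → Cs → Bool} (H : ∀ q Z, g q Z = true → h q Z = true) :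
    nu N g ≤ nu N h :=
  Finset.sum_le_sum fun q _ =>
    mul_le_mul_of_nonneg_left (Av_mono N fun Z => ind_mono (H q Z)) (by positivity)

theorem nu_nonneg (N : ℕ) (g : ℕ → Cs → Bool) : 0 ≤ nu N g :=
  Finset.sum_nonneg fun _ _ => mul_nonneg (by positivity) (Av_nonneg N fun _ => ind_nonneg _)

theorem nu_le_add (N : ℕ) {g h k : ℕ → Cs → Bool}
    (H : ∀ q Z, g q Z = true → h q Z = true ∨ k q Z = true) : nu N g ≤ nu N h + nu N k := by
  unfold nu
  rw [← Finset.sum_add_distrib]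
  refine Finset.sum_le_sum fun q _ => ?_
  rw [← mul_add, ← Av_add]
  refine mul_le_mul_of_nonneg_left (Av_mono N fun Z => ?_) (by positivity)
  have := H q Z
  revert this
  cases g q Z <;> cases h q Z <;> cases k q Z <;> simp

theorem nu_diff (N : ℕ) {g h : ℕ → Cs → Bool} (H : ∀ q Z, g q Z = true → h q Z = true) :
    nu N (fun q Z => h q Z && !g q Z) = nu N h - nu N g := by
  unfold nu
  rw [← Finset.sum_sub_distrib]
  refine Finset.sum_congr rfl fun q _ => ?_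
  rw [← mul_sub, ← Av_sub]
  congr 2
  funext Z
  have := H q Z
  revert this
  dsimp only
  cases g q Z <;> cases h q Z <;> simp

theorem nu_term_le {N q : ℕ} (hq : q < N) (g : ℕ → Cs → Bool) :
    2 ^ q * Av N (fun Z => ind (g q Z)) ≤ nu N g :=
  Finset.single_le_sum (f := fun q => 2 ^ q * Av N (fun Z => ind (g q Z)))
    (fun _ _ => mul_nonneg (by positivity) (Av_nonneg N fun _ => ind_nonneg _))
    (Finset.mem_range.2 hq)

theorem w_eq {s N : ℕ} (hN : s ≤ N) (X : Cs) : w s X = nu N (fun q => Et q s X) := by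
  unfold w Wn nu
  rw [← Finset.sum_subset (Finset.range_mono hN)]
  · rw [← List.sum_toFinset _ List.nodup_range, List.toFinset_range]
    push_cast
    rw [Finset.sum_div]
    refine Finset.sum_congr rfl fun q _ => ?_
    rw [cnt_eq, Av_stab ((Et_depZ q s X).comp ind) hN]
    simp only [ind_toNat]
    field_simp
  · intro q _ hq
    have : ∀ Z, Et q s X Z = false := by
      intro Z
      rw [← Bool.not_eq_true, Et_iff]
      rintro ⟨h, -⟩
      exact hq (Finset.mem_range.2 h)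
    simp [this, Av_const]

theorem w_mono {s s' : ℕ} (h : s ≤ s') (X : Cs) : w s X ≤ w s' X := by
  rw [w_eq h, w_eq le_rfl]
  exact nu_mono _ fun _ _ => Et_mono h

theorem w_nonneg (s : ℕ) (X : Cs) : 0 ≤ w s X := by unfold w; positivity

theorem w_zero (X : Cs) : w 0 X = 0 := by simp [w, Wn]

theorem w_dep (s : ℕ) : Dep s (w s) := by
  intro X Y H
  rw [w_eq le_rfl, w_eq le_rfl]
  congr 1
  funext q Z
  exact Et_depX q s Z X Y H

theorem Av_w {s N : ℕ} (hN : s ≤ N) : Av N (w s) ≤ 1 / 16 := by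
  have h1 : ∀ X, w s X ≤ ind (Un s (fun _ => false) X) + 1 / 32 := by
    intro X
    rw [w_eq le_rfl, nu]
    have h2 : ∀ q ∈ Finset.range s, 2 ^ q * Av s (fun Z => ind (Et q s X Z)) ≤
        (if q = 0 then ind (Un s (fun _ => false) X) else 0) + (1 / 64) * (1 / 2) ^ q := by
      intro q _
      rcases q with - | q
      · have : Av s (fun Z => ind (Et 0 s X Z)) ≤ ind (Un s (fun _ => false) X) := by
          rw [← Av_const s (ind (Un s (fun _ => false) X))]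
          refine Av_mono s fun Z => ind_mono fun h => ?_
          obtain ⟨-, h | h⟩ := Et_iff.1 h
          · exact h.2
          · exact absurd rfl h.1
        simp only [pow_zero, if_true]
        linarith
      · have : Av s (fun Z => ind (Et (q + 1) s X Z)) ≤ (1 / 2) ^ (2 * q + 8) := by
          refine le_trans (Av_mono s fun Z => ind_mono fun h => ?_) (EE_bound le_rfl X)
          obtain ⟨-, h | h⟩ := Et_iff.1 h
          · exact absurd h.1 (by omega)
          · exact h.2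
        rw [if_neg (by omega), zero_add]
        refine (mul_le_mul_of_nonneg_left this (by positivity)).trans (le_of_eq ?_)
        rw [two_mul]
        simp only [pow_add, one_div, inv_pow]
        field_simp
        norm_num
    refine (Finset.sum_le_sum h2).trans ?_
    rw [Finset.sum_add_distrib, ← Finset.mul_sum, Finset.sum_ite_eq']
    have := sum_geometric_two_le s
    have h3 := ind_nonneg (Un s (fun _ => false) X)
    split_ifs <;> linarith
  refine (Av_mono N h1).trans ?_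
  rw [Av_add, Av_const]
  have := Un_bound hN (fun _ => false)
  linarith

/-- Universality: a sequence that is not random relative to `A` is caught. -/
theorem capture {A Z : Cs} (h : ¬ RandomIn A Z) :
    ∃ e, ∀ n, ∃ s, EE (Nat.pair e n) s A Z = true := by
  unfold RandomIn at h
  push Not at h
  obtain ⟨U, ⟨⟨f, hf, hU⟩, hμ⟩, hZ⟩ := h
  obtain ⟨c, hc⟩ := exists_code_of_recursiveIn A hf
  refine ⟨encode c, fun n => ?_⟩
  set q := Nat.pair (encode c) n with hq
  have hhit : ∀ ρ, (f (2 * q + 8, ρ)).Dom ↔ ∃ j s, hit q s (pre j A) ρ = true := by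
    intro ρ
    rw [hc]
    simp [hit, hq]
  have hgood : ∀ r, good q r A = true := by
    intro r
    rw [good_iff]
    have h1 : {Z | raw q r A Z = true} ⊆ U (2 * q + 8) := by
      intro Y hY
      obtain ⟨j, -, i, -, H⟩ := raw_iff.1 hY
      rw [hU]
      exact Set.mem_biUnion ((hhit _).2 ⟨j, r, H⟩) (mem_cyl_pre i Y)
    have h2 := (MeasureTheory.measure_mono (μ := coin) h1).trans (hμ _)
    rw [coin_dep (raw_depZ q r A)] at h2
    have h3 : (2⁻¹ : ENNReal) ^ (2 * q + 8) = ENNReal.ofReal ((1 / 2) ^ (2 * q + 8)) := by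
      rw [ENNReal.ofReal_pow (by norm_num), one_div, ENNReal.ofReal_inv_of_pos (by norm_num)]
      simp
    rwa [h3, ENNReal.ofReal_le_ofReal_iff (by positivity)] at h2
  have h1 := Set.mem_iInter.1 hZ (2 * q + 8)
  rw [hU] at h1
  simp only [Set.mem_iUnion] at h1
  obtain ⟨ρ, hρ, hZρ⟩ := h1
  obtain ⟨j, s, H⟩ := (hhit ρ).1 hρ
  refine ⟨j + s + ρ.length, EE_iff.2 ⟨_, le_rfl, hgood _, raw_iff.2
    ⟨j, by omega, ρ.length, by omega, ?_⟩⟩⟩
  rw [← mem_cyl_iff.1 hZρ]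
  exact hit_mono (by omega) H

end Pool.Agent.Lib.MP_3d42d9_lc
end

-- part Pool.Agent.Lib.MP_3d42d9_lc.Constr
section

namespace Pool.Agent.Lib.MP_3d42d9_lc

/-- A frame: start of the block, length of the block, current round. -/
abbrev Fr := ℕ × ℕ × ℕ

def Sb (σ : List Fr) (X : Cs) : Bool := σ.all fun f => blk f.1 f.2.1 0 X

def Gb (σ : List Fr) (Y : Cs) : Bool := σ.all fun f => blk f.1 f.2.1 f.2.2 Y

def ell (σ : List Fr) : ℕ := (σ.head?.getD (0, 0, 0)).1

def bd (σ : List Fr) : ℕ := (σ.map fun f => f.1 + f.2.1).sum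

def Zs (σ : List Fr) : ℕ := (σ.map fun f => f.2.1).sum

def ex : List Fr → ℕ
  | [] => 4
  | f :: σ => ex σ + f.2.1 + 1 + (σ.length + 4) * (2 ^ f.2.1 - f.2.2)

def mask (H : List Fr) (i : ℕ) : Bool :=
  H.foldr (fun f acc => bif Nat.ble f.1 i && Nat.blt i (f.1 + f.2.1) then bit f.2.2 (i - f.1)
    else acc) false

def chi (C : List ℕ) (i : ℕ) : Bool := C.any fun j => j == i

def num (u : ℕ) (X : Cs) : ℕ := ((List.range u).map fun i => (X i).toNat).sum

def ptest (σ : List Fr) (u : ℕ) : Bool :=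
  Nat.blt (cnt (u + bd σ) (fun X => (Sb σ X).toNat * Wn (ell σ) X) * 2 ^ u * 2 ^ ex σ
      + 2 ^ (u + bd σ) * 2 ^ u * 2 ^ ell σ)
    (cnt (u + bd σ) (fun X => (Sb σ X).toNat * Wn u X) * 2 ^ ell σ * 2 ^ ex σ)

def vtest (σ : List Fr) (u : ℕ) (C : List ℕ) : Bool :=
  Nat.blt (2 ^ (u + bd σ))
    (8 * cnt (u + bd σ) (fun Y => (Gb σ Y).toNat * (Un u (chi C) Y).toNat) * 2 ^ Zs σ)

def nxt (f : Fr) : Fr := (f.1, f.2.1, f.2.2 + 1)

def act (u : ℕ) (C : List ℕ) (H : List Fr) (f : Fr) (σ : List Fr) :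
    Option (List Fr × List ℕ × List Fr) :=
  bif ptest (f :: σ) u then some (σ, C.filter (fun j => Nat.blt j f.1), H)
  else bif vtest (f :: σ) u C then some (nxt f :: σ, C, nxt f :: H) else none

def repair (u : ℕ) (C : List ℕ) (H : List Fr) : List Fr → Option (List Fr × List ℕ × List Fr)
  | [] => none
  | f :: σ => bif (repair u C H σ).isSome then repair u C H σ else act u C H f σ

/-- A state: stack, oracle built so far, history of the mask, bound on the blocks. -/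
abbrev St := List Fr × List ℕ × List Fr × ℕ

def newFr (u : ℕ) (C : List ℕ) : Fr := (u, num u (chi C) + 1, 0)

def step (u : ℕ) (s : St) : St :=
  bif (repair u s.2.1 s.2.2.1 s.1).isSome then
    (((repair u s.2.1 s.2.2.1 s.1).getD ([], [], [])).1,
      ((repair u s.2.1 s.2.2.1 s.1).getD ([], [], [])).2.1,
      ((repair u s.2.1 s.2.2.1 s.1).getD ([], [], [])).2.2, s.2.2.2)
  else bif Nat.ble s.2.2.2 u then
    (newFr u s.2.1 :: s.1, u :: s.2.1, newFr u s.2.1 :: s.2.2.1, u + (newFr u s.2.1).2.1)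
  else s

def st : ℕ → St
  | 0 => ([], [], [], 0)
  | t + 1 => step (t + 1) (st t)

section
variable {α : Type} [Primcodable α]

@[fun_prop] theorem PR.Sb {σ : α → List Fr} {X : α → Cs} (hσ : PR σ)
    (hX : PR (fun p : α × ℕ => X p.1 p.2)) : PR (fun a => Sb (σ a) (X a)) := by
  unfold MP_3d42d9_lc.Sb
  fun_prop

@[fun_prop] theorem PR.Gb {σ : α → List Fr} {X : α → Cs} (hσ : PR σ)
    (hX : PR (fun p : α × ℕ => X p.1 p.2)) : PR (fun a => Gb (σ a) (X a)) := by
  unfold MP_3d42d9_lc.Gb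
  fun_prop

@[fun_prop] theorem PR.ell {σ : α → List Fr} (hσ : PR σ) : PR (fun a => ell (σ a)) := by
  unfold MP_3d42d9_lc.ell
  have : PR (fun a => (σ a).head?) := Primrec.list_head?.comp hσ
  fun_prop

@[fun_prop] theorem PR.bd {σ : α → List Fr} (hσ : PR σ) : PR (fun a => bd (σ a)) := by
  unfold MP_3d42d9_lc.bd
  fun_prop

@[fun_prop] theorem PR.Zs {σ : α → List Fr} (hσ : PR σ) : PR (fun a => Zs (σ a)) := by
  unfold MP_3d42d9_lc.Zs
  fun_prop

@[fun_prop] theorem PR.ex {σ : α → List Fr} (hσ : PR σ) : PR (fun a => ex (σ a)) := by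
  have h1 : PR (fun p : α × Fr × List Fr × ℕ =>
      p.2.2.2 + p.2.1.2.1 + 1 + (p.2.2.1.length + 4) * (2 ^ p.2.1.2.1 - p.2.1.2.2)) := by
    fun_prop
  refine PR.of_eq (Primrec.list_rec hσ (Primrec.const 4) h1.primrec.to₂) fun a => ?_
  induction σ a <;> simp [MP_3d42d9_lc.ex, *]

@[fun_prop] theorem PR.mask {H : α → List Fr} {i : α → ℕ} (hH : PR H) (hi : PR i) :
    PR (fun a => mask (H a) (i a)) := by
  unfold MP_3d42d9_lc.mask
  fun_prop

@[fun_prop] theorem PR.chi {C : α → List ℕ} {i : α → ℕ} (hC : PR C) (hi : PR i) :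
    PR (fun a => chi (C a) (i a)) := by
  unfold MP_3d42d9_lc.chi
  fun_prop

@[fun_prop] theorem PR.num {u : α → ℕ} {X : α → Cs} (hu : PR u)
    (hX : PR (fun p : α × ℕ => X p.1 p.2)) : PR (fun a => num (u a) (X a)) := by
  unfold MP_3d42d9_lc.num
  fun_prop

@[fun_prop] theorem PR.ptest {σ : α → List Fr} {u : α → ℕ} (hσ : PR σ) (hu : PR u) :
    PR (fun a => ptest (σ a) (u a)) := by
  unfold MP_3d42d9_lc.ptest
  have h1 : PR (fun a => MP_3d42d9_lc.cnt (u a + MP_3d42d9_lc.bd (σ a))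
      (fun X => (MP_3d42d9_lc.Sb (σ a) X).toNat * MP_3d42d9_lc.Wn (MP_3d42d9_lc.ell (σ a)) X)) :=
    PR.cnt (by fun_prop) (by fun_prop)
  have h2 : PR (fun a => MP_3d42d9_lc.cnt (u a + MP_3d42d9_lc.bd (σ a))
      (fun X => (MP_3d42d9_lc.Sb (σ a) X).toNat * MP_3d42d9_lc.Wn (u a) X)) :=
    PR.cnt (by fun_prop) (by fun_prop)
  fun_prop

@[fun_prop] theorem PR.vtest {σ : α → List Fr} {u : α → ℕ} {C : α → List ℕ} (hσ : PR σ)
    (hu : PR u) (hC : PR C) : PR (fun a => vtest (σ a) (u a) (C a)) := by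
  unfold MP_3d42d9_lc.vtest
  have h1 : PR (fun a => MP_3d42d9_lc.cnt (u a + MP_3d42d9_lc.bd (σ a))
      (fun Y => (MP_3d42d9_lc.Gb (σ a) Y).toNat *
        (MP_3d42d9_lc.Un (u a) (MP_3d42d9_lc.chi (C a)) Y).toNat)) :=
    PR.cnt (by fun_prop) (by fun_prop)
  fun_prop

@[fun_prop] theorem PR.nxt {f : α → Fr} (hf : PR f) : PR (fun a => nxt (f a)) := by
  unfold MP_3d42d9_lc.nxt
  fun_prop

@[fun_prop] theorem PR.act {u : α → ℕ} {C : α → List ℕ} {H σ : α → List Fr} {f : α → Fr}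
    (hu : PR u) (hC : PR C) (hH : PR H) (hf : PR f) (hσ : PR σ) :
    PR (fun a => act (u a) (C a) (H a) (f a) (σ a)) := by
  unfold MP_3d42d9_lc.act
  fun_prop

@[fun_prop] theorem PR.repair {u : α → ℕ} {C : α → List ℕ} {H σ : α → List Fr}
    (hu : PR u) (hC : PR C) (hH : PR H) (hσ : PR σ) :
    PR (fun a => repair (u a) (C a) (H a) (σ a)) := by
  have h1 : PR (fun p : α × Fr × List Fr × Option (List Fr × List ℕ × List Fr) =>
      bif p.2.2.2.isSome then p.2.2.2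
      else MP_3d42d9_lc.act (u p.1) (C p.1) (H p.1) p.2.1 p.2.2.1) := by
    fun_prop
  refine PR.of_eq (Primrec.list_rec hσ (Primrec.const none) h1.primrec.to₂) fun a => ?_
  induction σ a <;> simp [MP_3d42d9_lc.repair, *]

@[fun_prop] theorem PR.newFr {u : α → ℕ} {C : α → List ℕ} (hu : PR u) (hC : PR C) :
    PR (fun a => newFr (u a) (C a)) := by
  unfold MP_3d42d9_lc.newFr
  fun_prop

@[fun_prop] theorem PR.step {u : α → ℕ} {s : α → St} (hu : PR u) (hs : PR s) :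
    PR (fun a => step (u a) (s a)) := by
  unfold MP_3d42d9_lc.step
  fun_prop

theorem pr_st : PR st := by
  have h1 : PR (fun p : ℕ × St => step (p.1 + 1) p.2) := by fun_prop
  refine PR.of_eq (Primrec.nat_rec₁ (f := fun t s => step (t + 1) s) ([], [], [], 0) h1) fun t => ?_
  induction t <;> simp [st, *]

@[fun_prop] theorem PR.st {t : α → ℕ} (ht : PR t) : PR (fun a => st (t a)) :=
  PR.comp' pr_st ht

end

/-- No frame of the stack asks for attention. -/
def OK (u : ℕ) (C : List ℕ) : List Fr → Prop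
  | [] => True
  | f :: σ => ptest (f :: σ) u = false ∧ vtest (f :: σ) u C = false ∧ OK u C σ

/-- The four kinds of transitions. -/
inductive Tr (u : ℕ) : St → St → Prop
  | abandon (τ : List Fr) (f : Fr) (σ : List Fr) (C : List ℕ) (H : List Fr) (L : ℕ) :
      OK u C σ → ptest (f :: σ) u = true →
      Tr u (τ ++ f :: σ, C, H, L) (σ, C.filter (fun j => Nat.blt j f.1), H, L)
  | round (τ : List Fr) (f : Fr) (σ : List Fr) (C : List ℕ) (H : List Fr) (L : ℕ) :
      OK u C σ → ptest (f :: σ) u = false → vtest (f :: σ) u C = true →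
      Tr u (τ ++ f :: σ, C, H, L) (nxt f :: σ, C, nxt f :: H, L)
  | push (σ : List Fr) (C : List ℕ) (H : List Fr) (L : ℕ) :
      OK u C σ → L ≤ u →
      Tr u (σ, C, H, L) (newFr u C :: σ, u :: C, newFr u C :: H, u + (newFr u C).2.1)
  | wait (σ : List Fr) (C : List ℕ) (H : List Fr) (L : ℕ) :
      OK u C σ → u < L → Tr u (σ, C, H, L) (σ, C, H, L)

theorem repair_spec (u : ℕ) (C : List ℕ) (H : List Fr) (L : ℕ) (σ : List Fr) :
    (repair u C H σ = none ∧ OK u C σ) ∨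
      ∃ r, repair u C H σ = some r ∧ ∀ τ, Tr u (τ ++ σ, C, H, L) (r.1, r.2.1, r.2.2, L) := by
  induction σ with
  | nil => exact Or.inl ⟨rfl, trivial⟩
  | cons f σ ih =>
    rcases ih with ⟨h1, h2⟩ | ⟨r, h1, h2⟩
    · simp only [repair, h1, Option.isSome_none, cond_false, act]
      cases hp : ptest (f :: σ) u
      · cases hv : vtest (f :: σ) u C
        · exact Or.inl ⟨rfl, hp, hv, h2⟩
        · exact Or.inr ⟨_, rfl, fun τ => Tr.round τ f σ C H L h2 hp hv⟩
      · exact Or.inr ⟨_, rfl, fun τ => Tr.abandon τ f σ C H L h2 hp⟩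
    · refine Or.inr ⟨r, by simp [repair, h1], fun τ => ?_⟩
      have := h2 (τ ++ [f])
      simpa using this

theorem tr_step (u : ℕ) (s : St) : Tr u s (step u s) := by
  obtain ⟨σ, C, H, L⟩ := s
  rcases repair_spec u C H L σ with ⟨h1, h2⟩ | ⟨r, h1, h2⟩
  · simp only [step, h1, Option.isSome_none, cond_false]
    cases h : Nat.ble L u
    · exact Tr.wait σ C H L h2 (by rw [← Bool.not_eq_true, Nat.ble_eq] at h; omega)
    · exact Tr.push σ C H L h2 (Nat.ble_eq.mp h)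
  · simp only [step, h1, Option.isSome_some, cond_true, Option.getD_some]
    exact h2 []

theorem tr_st (t : ℕ) : Tr (t + 1) (st t) (st (t + 1)) := tr_step _ _

end Pool.Agent.Lib.MP_3d42d9_lc
end

-- part Pool.Agent.Lib.MP_3d42d9_lc.Quant
section

namespace Pool.Agent.Lib.MP_3d42d9_lc

noncomputable def aa (σ : List Fr) : ℝ := (1 / 2) ^ Zs σ
noncomputable def th (σ : List Fr) : ℝ := (1 / 2) ^ ex σ
noncomputable def kap (σ : List Fr) : ℝ := (1 / 2) ^ σ.length

noncomputable def pp (σ : List Fr) (u : ℕ) : ℝ :=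
  Av (u + bd σ) (fun X => ind (Sb σ X) * (w u X - w (ell σ) X))

noncomputable def vv (σ : List Fr) (u : ℕ) (C : List ℕ) : ℝ :=
  Av (u + bd σ) (fun Y => ind (Gb σ Y) * ind (Un u (chi C) Y))

def Part (σ : List Fr) (f : Fr) (k : ℕ) (Y : Cs) : Bool := blk f.1 f.2.1 k Y && Gb σ Y

def Ch : List Fr → ℕ → Prop
  | [], _ => True
  | f :: σ, b => f.1 + f.2.1 ≤ b ∧ f.2.2 < 2 ^ f.2.1 ∧ Ch σ f.1

def Mk (H σ : List Fr) : Prop := ∀ f ∈ σ, ∀ i < f.2.1, mask H (f.1 + i) = bit f.2.2 i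

@[simp] theorem ell_nil : ell [] = 0 := rfl
@[simp] theorem ell_cons (f : Fr) (σ : List Fr) : ell (f :: σ) = f.1 := rfl
@[simp] theorem Sb_nil (X : Cs) : Sb [] X = true := rfl
@[simp] theorem Gb_nil (X : Cs) : Gb [] X = true := rfl
theorem Sb_cons (f : Fr) (σ : List Fr) (X : Cs) :
    Sb (f :: σ) X = (blk f.1 f.2.1 0 X && Sb σ X) := rfl
theorem Gb_cons (f : Fr) (σ : List Fr) (X : Cs) : Gb (f :: σ) X = Part σ f f.2.2 X := rfl
theorem bd_cons (f : Fr) (σ : List Fr) : bd (f :: σ) = f.1 + f.2.1 + bd σ := by simp [bd]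

theorem Gb_of_cons {f : Fr} {σ : List Fr} {X : Cs} (h : Gb (f :: σ) X = true) : Gb σ X = true := by
  rw [Gb_cons, Part, Bool.and_eq_true] at h; exact h.2

theorem Gb_of_append {τ σ : List Fr} {X : Cs} (h : Gb (τ ++ σ) X = true) : Gb σ X = true := by
  simp only [Gb, List.all_append, Bool.and_eq_true] at h ⊢; exact h.2

theorem aa_pos (σ : List Fr) : 0 < aa σ := by unfold aa; positivity
theorem th_pos (σ : List Fr) : 0 < th σ := by unfold th; positivity
theorem kap_pos (σ : List Fr) : 0 < kap σ := by unfold kap; positivity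
theorem kap_le_one (σ : List Fr) : kap σ ≤ 1 := pow_le_one₀ (by norm_num) (by norm_num)
@[simp] theorem aa_nil : aa [] = 1 := by simp [aa, Zs]
@[simp] theorem kap_nil : kap [] = 1 := by simp [kap]
theorem th_nil : th [] = 1 / 16 := by norm_num [th, ex]

theorem aa_cons (f : Fr) (σ : List Fr) : aa (f :: σ) = aa σ / 2 ^ f.2.1 := by
  simp only [aa, Zs, List.map_cons, List.sum_cons, pow_add, one_div, inv_pow]
  field_simp

theorem kap_cons (f : Fr) (σ : List Fr) : kap (f :: σ) = kap σ / 2 := by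
  simp only [kap, List.length_cons, pow_succ]; ring

theorem th_cons (f : Fr) (σ : List Fr) : th (f :: σ) ≤ th σ / 2 ^ f.2.1 / 2 := by
  have : th σ / 2 ^ f.2.1 / 2 = (1 / 2) ^ (ex σ + f.2.1 + 1) := by
    simp only [th, pow_add, one_div, inv_pow]
    field_simp
  rw [this, th, ex]
  exact pow_le_pow_of_le_one (by norm_num) (by norm_num) (by omega)

theorem th_cons_le (f : Fr) (σ : List Fr) : th (f :: σ) ≤ th σ := by
  refine (th_cons f σ).trans ?_
  have h1 : (1 : ℝ) ≤ 2 ^ f.2.1 := one_le_pow₀ (by norm_num)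
  have h2 := th_pos σ
  have h3 : th σ / 2 ^ f.2.1 ≤ th σ := div_le_self h2.le h1
  linarith

theorem th_nxt {f : Fr} (σ : List Fr) (h : f.2.2 < 2 ^ f.2.1) :
    kap (f :: σ) / 2 * th (nxt f :: σ) = 4 * th (f :: σ) := by
  have : ex (f :: σ) = ex (nxt f :: σ) + (σ.length + 4) := by
    simp only [ex, nxt]
    obtain ⟨d, hd⟩ : ∃ d, 2 ^ f.2.1 = f.2.2 + 1 + d := ⟨2 ^ f.2.1 - (f.2.2 + 1), by omega⟩
    rw [hd, show f.2.2 + 1 + d - f.2.2 = d + 1 by omega,
      show f.2.2 + 1 + d - (f.2.2 + 1) = d by omega]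
    ring
  simp only [th, this, kap, List.length_cons, pow_add]
  ring

theorem dep_Sb (σ : List Fr) : Dep (bd σ) (Sb σ) := by
  induction σ with
  | nil => exact fun _ _ _ => rfl
  | cons f σ ih =>
    exact ((dep_blk _ _ _).mono (by rw [bd_cons]; omega)).comp₂
      (ih.mono (by rw [bd_cons]; omega)) and

theorem dep_Gb (σ : List Fr) : Dep (bd σ) (Gb σ) := by
  induction σ with
  | nil => exact fun _ _ _ => rfl
  | cons f σ ih =>
    exact ((dep_blk _ _ _).mono (by rw [bd_cons]; omega)).comp₂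
      (ih.mono (by rw [bd_cons]; omega)) and

theorem ell_le_bd (σ : List Fr) : ell σ ≤ bd σ := by
  cases σ with
  | nil => simp
  | cons f σ => rw [bd_cons, ell_cons]; omega

theorem Ch.mono {σ : List Fr} {b b' : ℕ} (h : Ch σ b) (hb : b ≤ b') : Ch σ b' := by
  cases σ with
  | nil => trivial
  | cons f σ => exact ⟨h.1.trans hb, h.2⟩

theorem Ch.tail {f : Fr} {σ : List Fr} {b : ℕ} (h : Ch (f :: σ) b) : Ch σ b :=
  h.2.2.mono (by have := h.1; omega)

theorem Ch.suffix {τ σ : List Fr} {b : ℕ} (h : Ch (τ ++ σ) b) : Ch σ b := by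
  induction τ with
  | nil => exact h
  | cons f τ ih => exact ih h.tail

theorem Ch.ell_le {σ : List Fr} {b : ℕ} (h : Ch σ b) : ell σ ≤ b := by
  cases σ with
  | nil => simp
  | cons f σ => have := h.1; rw [ell_cons]; omega

theorem Ch.ell_suffix {τ σ : List Fr} {b : ℕ} (h : Ch (τ ++ σ) b) : ell σ ≤ ell (τ ++ σ) := by
  cases τ with
  | nil => exact le_rfl
  | cons f τ => exact h.2.2.suffix.ell_le

theorem Ch.le {σ : List Fr} {b : ℕ} (h : Ch σ b) : ∀ f ∈ σ, f.1 + f.2.1 ≤ b := by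
  induction σ with
  | nil => simp
  | cons g σ ih =>
    intro f hf
    rcases List.mem_cons.1 hf with rfl | hf
    · exact h.1
    · exact ih h.tail f hf

theorem Ch.depS {σ : List Fr} {b : ℕ} (h : Ch σ b) : Dep b (Sb σ) := by
  induction σ with
  | nil => exact fun _ _ _ => rfl
  | cons f σ ih => exact ((dep_blk _ _ _).mono h.1).comp₂ (ih h.tail) and

theorem Ch.depG {σ : List Fr} {b : ℕ} (h : Ch σ b) : Dep b (Gb σ) := by
  induction σ with
  | nil => exact fun _ _ _ => rfl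
  | cons f σ ih => exact ((dep_blk _ _ _).mono h.1).comp₂ (ih h.tail) and

theorem Gb_eq_Sb {H σ : List Fr} (h : Mk H σ) (Y : Cs) : Gb σ Y = Sb σ (xr Y (mask H)) := by
  rw [Bool.eq_iff_iff]
  simp only [Gb, Sb, List.all_eq_true, blk_iff]
  refine forall_congr' fun f => forall_congr' fun hf => forall_congr' fun i =>
    forall_congr' fun hi => ?_
  rw [xr, h f hf i hi, bit_eq 0, Nat.zero_testBit]
  cases Y (f.1 + i) <;> cases bit f.2.2 i <;> simp

theorem Av_Part {N : ℕ} {σ : List Fr} {f : Fr} (hσ : Ch σ f.1) (hN : f.1 + f.2.1 ≤ N) (k : ℕ)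
    {g : Cs → ℝ} (hg : Dep f.1 g) :
    Av N (fun Y => ind (Part σ f k Y) * g Y) = Av N (fun Y => ind (Gb σ Y) * g Y) / 2 ^ f.2.1 := by
  rw [← Av_blk (k := k) hN ((hσ.depG.comp ind).comp₂ hg (· * ·))]
  congr 1
  funext Y
  rw [Part, ind_and]; ring

theorem Av_Sb_cons {N : ℕ} {σ : List Fr} {f : Fr} (hσ : Ch σ f.1) (hN : f.1 + f.2.1 ≤ N)
    {g : Cs → ℝ} (hg : Dep f.1 g) :
    Av N (fun Y => ind (Sb (f :: σ) Y) * g Y) = Av N (fun Y => ind (Sb σ Y) * g Y) / 2 ^ f.2.1 := by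
  rw [← Av_blk (k := 0) hN ((hσ.depS.comp ind).comp₂ hg (· * ·))]
  congr 1
  funext Y
  rw [Sb_cons, ind_and]; ring

theorem Av_Gb {N b : ℕ} {σ : List Fr} (hσ : Ch σ b) (hN : b ≤ N) :
    Av N (fun Y => ind (Gb σ Y)) = aa σ := by
  induction σ with
  | nil => simp [Av_const]
  | cons f σ ih =>
    have := Av_Part hσ.2.2 (hσ.1.trans hN) f.2.2 (g := fun _ => 1) (fun _ _ _ => rfl)
    simp only [mul_one] at this
    simp only [Gb_cons]
    rw [this, ih hσ.tail, aa_cons]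

theorem sum_Part (N : ℕ) (σ : List Fr) (f : Fr) (g : Cs → ℝ) :
    Av N (fun Y => ind (Gb σ Y) * g Y)
      = ∑ k ∈ Finset.range (2 ^ f.2.1), Av N (fun Y => ind (Part σ f k Y) * g Y) := by
  rw [← Av_sum]
  congr 1
  funext Y
  simp only [Part, ind_and, mul_assoc]
  rw [← Finset.sum_mul, sum_blk, one_mul]

theorem pp_dep (σ : List Fr) (u : ℕ) :
    Dep (u + bd σ) (fun X => ind (Sb σ X) * (w u X - w (ell σ) X)) :=
  (((dep_Sb σ).mono (by omega)).comp ind).comp₂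
    (((w_dep u).mono (by omega)).comp₂ ((w_dep _).mono (by have := ell_le_bd σ; omega)) (· - ·))
    (· * ·)

theorem pp_eq' {σ : List Fr} {u N : ℕ} (hN : u + bd σ ≤ N) :
    pp σ u = Av N (fun X => ind (Sb σ X) * (w u X - w (ell σ) X)) :=
  (Av_stab (pp_dep σ u) hN).symm

theorem pp_eq {σ : List Fr} {u b N : ℕ} (hσ : Ch σ b) (hb : b ≤ N) (hu : u ≤ N) :
    pp σ u = Av N (fun X => ind (Sb σ X) * (w u X - w (ell σ) X)) := by
  rw [pp_eq' (N := N + (u + bd σ)) (by omega)]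
  refine Av_stab ?_ (by omega)
  exact ((hσ.depS.mono hb).comp ind).comp₂
    (((w_dep u).mono hu).comp₂ ((w_dep _).mono (hσ.ell_le.trans hb)) (· - ·)) (· * ·)

theorem vv_eq {σ : List Fr} {u b N : ℕ} (C : List ℕ) (hσ : Ch σ b) (hb : b ≤ N) (hu : u ≤ N) :
    vv σ u C = Av N (fun Y => ind (Gb σ Y) * ind (Un u (chi C) Y)) := by
  have h1 : Dep (u + bd σ) (fun Y => ind (Gb σ Y) * ind (Un u (chi C) Y)) :=
    (((dep_Gb σ).mono (by omega)).comp ind).comp₂
      (((Un_depZ u _).mono (by omega)).comp ind) (· * ·)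
  have h2 : Dep N (fun Y => ind (Gb σ Y) * ind (Un u (chi C) Y)) :=
    ((hσ.depG.mono hb).comp ind).comp₂ (((Un_depZ u _).mono hu).comp ind) (· * ·)
  rw [vv, ← Av_stab h1 (M := N + (u + bd σ)) (by omega), Av_stab h2 (by omega)]

theorem pp_sub (σ : List Fr) (u u' : ℕ) {N : ℕ} (hN : u + u' + bd σ ≤ N) :
    pp σ u' - pp σ u = Av N (fun X => ind (Sb σ X) * (w u' X - w u X)) := by
  rw [pp_eq' (N := N) (by omega), pp_eq' (N := N) (by omega), ← Av_sub]
  congr 1
  funext X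
  ring

theorem pp_mono (σ : List Fr) {u u' : ℕ} (h : u ≤ u') : pp σ u ≤ pp σ u' := by
  rw [← sub_nonneg, pp_sub σ u u' le_rfl]
  exact Av_nonneg _ fun X => mul_nonneg (ind_nonneg _) (sub_nonneg.2 (w_mono h X))

theorem pp_ell (σ : List Fr) : pp σ (ell σ) = 0 := by simp [pp, Av_const]

theorem pp_nonneg {σ : List Fr} {u : ℕ} (h : ell σ ≤ u) : 0 ≤ pp σ u := by
  rw [← pp_ell σ]; exact pp_mono σ h

theorem pp_cons_le {f : Fr} (σ : List Fr) {u : ℕ} (h : f.1 ≤ u) :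
    pp (f :: σ) u ≤ pp σ u - pp σ f.1 := by
  rw [pp_sub σ f.1 u (N := u + bd (f :: σ)) (by rw [bd_cons]; omega), pp]
  refine Av_mono _ fun X => mul_le_mul_of_nonneg_right (ind_mono fun hX => ?_)
    (sub_nonneg.2 (w_mono h X))
  rw [Sb_cons, Bool.and_eq_true] at hX
  exact hX.2

theorem pp_nil_le (u : ℕ) : pp [] u ≤ 1 / 16 := by
  simp only [pp, Sb_nil, ind_true, ell_nil, w_zero, one_mul, sub_zero]
  exact Av_w (by omega)

theorem pp_le (σ : List Fr) (u : ℕ) : pp σ u ≤ 1 / 16 := by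
  refine le_trans (Av_mono _ fun X => ?_) (Av_w (s := u) (N := u + bd σ) (by omega))
  have h1 := w_nonneg u X
  have h2 := w_nonneg (ell σ) X
  cases Sb σ X <;> simp <;> linarith

theorem ptest_iff {σ : List Fr} {u : ℕ} : ptest σ u = true ↔ th σ < pp σ u := by
  unfold ptest
  rw [Nat.blt_eq, ← Nat.cast_lt (α := ℝ)]
  push_cast
  rw [cnt_eq, cnt_eq]
  have h1 : ∀ s, Av (u + bd σ) (fun X => (((Sb σ X).toNat * Wn s X : ℕ) : ℝ))
      = 2 ^ s * Av (u + bd σ) (fun X => ind (Sb σ X) * w s X) := by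
    intro s
    rw [← Av_mul]
    congr 1
    funext X
    push_cast
    rw [ind_toNat, w]
    field_simp
  have h2 : pp σ u = Av (u + bd σ) (fun X => ind (Sb σ X) * w u X)
      - Av (u + bd σ) (fun X => ind (Sb σ X) * w (ell σ) X) := by
    rw [pp, ← Av_sub]
    congr 1
    funext X
    ring
  rw [h1, h1, h2, th, one_div, inv_pow]
  generalize Av (u + bd σ) (fun X => ind (Sb σ X) * w u X) = a
  generalize Av (u + bd σ) (fun X => ind (Sb σ X) * w (ell σ) X) = b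
  have hA : (0 : ℝ) < 2 ^ (u + bd σ) * 2 ^ u * 2 ^ ell σ := by positivity
  have hB : (0 : ℝ) < 2 ^ ex σ := by positivity
  rw [inv_lt_iff_one_lt_mul₀ hB]
  constructor
  · intro h
    by_contra hc
    push Not at hc
    nlinarith
  · intro h
    nlinarith

theorem vtest_iff {σ : List Fr} {u : ℕ} {C : List ℕ} :
    vtest σ u C = true ↔ aa σ / 8 < vv σ u C := by
  unfold vtest
  rw [Nat.blt_eq, ← Nat.cast_lt (α := ℝ)]
  push_cast
  rw [cnt_eq]
  push_cast
  simp only [ind_toNat]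
  rw [aa, one_div, inv_pow]
  change _ < 8 * (_ * vv σ u C) * _ ↔ _
  generalize vv σ u C = a
  have hA : (0 : ℝ) < 2 ^ (u + bd σ) := by positivity
  have hB : (0 : ℝ) < 2 ^ Zs σ := by positivity
  rw [div_lt_iff₀ (by norm_num), inv_lt_iff_one_lt_mul₀ hB]
  constructor
  · intro h
    by_contra hc
    push Not at hc
    nlinarith
  · intro h
    nlinarith

theorem OK.tail {u : ℕ} {C : List ℕ} {f : Fr} {σ : List Fr} (h : OK u C (f :: σ)) : OK u C σ :=
  h.2.2

theorem OK.suffix {u : ℕ} {C : List ℕ} {τ σ : List Fr} (h : OK u C (τ ++ σ)) : OK u C σ := by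
  induction τ with
  | nil => exact h
  | cons f τ ih => exact ih h.tail

theorem OK.vle {u : ℕ} {C : List ℕ} {σ : List Fr} (h : OK u C σ) : vv σ u C ≤ aa σ / 8 := by
  cases σ with
  | nil =>
    simp only [vv, Gb_nil, ind_true, one_mul, aa_nil]
    exact (Un_bound (by omega) _).trans (by norm_num)
  | cons f σ =>
    have := h.2.1
    rwa [← Bool.not_eq_true, vtest_iff, not_lt] at this

theorem ple_of_ptest {u : ℕ} {σ : List Fr} (h : ptest σ u = false) : pp σ u ≤ th σ := by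
  rwa [← Bool.not_eq_true, ptest_iff, not_lt] at h

theorem mask_cons_lt (f : Fr) (H : List Fr) {i : ℕ} (hi : i < f.1) :
    mask (f :: H) i = mask H i := by
  have : Nat.ble f.1 i = false := by rw [← Bool.not_eq_true, Nat.ble_eq]; omega
  simp [mask, this]

theorem mask_cons_in (f : Fr) (H : List Fr) {i : ℕ} (hi : i < f.2.1) :
    mask (f :: H) (f.1 + i) = bit f.2.2 i := by
  have h1 : Nat.ble f.1 (f.1 + i) = true := by rw [Nat.ble_eq]; omega
  have h2 : Nat.blt (f.1 + i) (f.1 + f.2.1) = true := by rw [Nat.blt_eq]; omega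
  simp [mask, h1, h2]

theorem Mk.cons {H σ : List Fr} {f : Fr} (h : Mk H σ) (hσ : Ch σ f.1) : Mk (f :: H) (f :: σ) := by
  intro g hg i hi
  rcases List.mem_cons.1 hg with rfl | hg
  · exact mask_cons_in _ _ hi
  · rw [mask_cons_lt _ _ (by have := hσ.le g hg; omega)]
    exact h g hg i hi

theorem chi_iff {C : List ℕ} {i : ℕ} : chi C i = true ↔ i ∈ C := by simp [chi]

theorem chi_filter_lt (C : List ℕ) {l i : ℕ} (hi : i < l) :
    chi (C.filter fun j => Nat.blt j l) i = chi C i := by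
  rw [Bool.eq_iff_iff, chi_iff, chi_iff]
  simp [Nat.blt_eq, hi]

theorem chi_cons_ne (C : List ℕ) {u i : ℕ} (hi : i ≠ u) : chi (u :: C) i = chi C i := by
  rw [Bool.eq_iff_iff, chi_iff, chi_iff]
  simp [hi]

theorem num_dep (u : ℕ) : Dep u (num u) := by
  intro X Y H
  unfold num
  congr 1
  exact List.map_congr_left fun i hi => by rw [H i (List.mem_range.1 hi)]

theorem num_succ (u : ℕ) (X : Cs) : num (u + 1) X = num u X + (X u).toNat := by
  simp [num, List.range_succ]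

end Pool.Agent.Lib.MP_3d42d9_lc
end

-- part Pool.Agent.Lib.MP_3d42d9_lc.Inv
section

namespace Pool.Agent.Lib.MP_3d42d9_lc

def Inv (N : ℕ) (Δ : Cs → ℝ) (C : List ℕ) : List Fr → ℕ → ℝ → Prop
  | [], u, y => y ≤ kap [] * pp [] u
  | f :: σ, u, y => ∃ β : ℝ, y ≤ β * aa (f :: σ) + kap (f :: σ) * pp (f :: σ) u ∧
      (∀ k, f.2.2 < k → k < 2 ^ f.2.1 →
        Av N (fun Y => ind (Part σ f k Y) * Δ Y) ≤ β * aa (f :: σ)) ∧
      ∑ k ∈ Finset.range f.2.2, Av N (fun Y => ind (Part σ f k Y) * Δ Y)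
        ≤ f.2.2 * (β * aa (f :: σ)) + kap (f :: σ) / 2 * th (f :: σ) ∧
      (∀ k < f.2.2, aa (f :: σ) / 8 < Av N (fun Y => ind (Part σ f k Y) * ind (Un u (chi C) Y))) ∧
      Inv N Δ C σ f.1 (β * aa σ)

def Sl (N : ℕ) (Δ : Cs → ℝ) (C : List ℕ) (σ : List Fr) (u : ℕ) (s : ℝ) : Prop :=
  ∃ y, Inv N Δ C σ u y ∧ Av N (fun Y => ind (Gb σ Y) * Δ Y) ≤ y + s

variable {N : ℕ} {Δ Δ' : Cs → ℝ} {C C' : List ℕ}

theorem Inv.raise {σ : List Fr} {u u' : ℕ} {y y' : ℝ} (h : Inv N Δ C σ u y) (hu : u ≤ u')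
    (hy : y' ≤ y + kap σ * (pp σ u' - pp σ u)) : Inv N Δ C σ u' y' := by
  cases σ with
  | nil => simp only [Inv] at h ⊢; linarith
  | cons f σ =>
    obtain ⟨β, h1, h2, h3, h4, h5⟩ := h
    refine ⟨β, by linarith, h2, h3, fun k hk => (h4 k hk).trans_le (Av_mono N fun Y => ?_), h5⟩
    exact mul_le_mul_of_nonneg_left (ind_mono (Un_mono hu)) (ind_nonneg _)

theorem Inv.mono {σ : List Fr} {u u' : ℕ} {y : ℝ} (h : Inv N Δ C σ u y) (hu : u ≤ u') :
    Inv N Δ C σ u' y :=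
  h.raise hu (le_add_of_nonneg_right (mul_nonneg (kap_pos σ).le (sub_nonneg.2 (pp_mono σ hu))))

theorem Inv.congrC {σ : List Fr} {u b : ℕ} {y : ℝ} (h : Inv N Δ C σ u y) (hσ : Ch σ b)
    (hu : ell σ ≤ u) (hC : ∀ i < u, chi C i = chi C' i) : Inv N Δ C' σ u y := by
  induction σ generalizing u y b with
  | nil => exact h
  | cons f σ ih =>
    obtain ⟨β, h1, h2, h3, h4, h5⟩ := h
    refine ⟨β, h1, h2, h3, fun k hk => ?_,
      ih h5 hσ.2.2 hσ.2.2.ell_le fun i hi => hC i (hi.trans_le hu)⟩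
    have : ∀ Y, Un u (chi C') Y = Un u (chi C) Y := fun Y => (Un_depX u Y _ _ hC).symm
    simp only [this]
    exact h4 k hk

theorem Part_ne {σ : List Fr} {f : Fr} {k : ℕ} {Y : Cs} (hf : f.2.2 < 2 ^ f.2.1)
    (hk : k < 2 ^ f.2.1) (hne : k ≠ f.2.2) (h : Part σ f k Y = true) : Gb (f :: σ) Y = false := by
  rw [← Bool.not_eq_true, Gb_cons]
  intro h'
  simp only [Part, Bool.and_eq_true] at h h'
  exact hne (blk_unique hk hf h.1 h'.1)

theorem Av_Part_congr {σ : List Fr} {f : Fr} {k : ℕ} (hf : f.2.2 < 2 ^ f.2.1)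
    (hk : k < 2 ^ f.2.1) (hne : k ≠ f.2.2) (hΔ : ∀ Y, Gb (f :: σ) Y = false → Δ' Y = Δ Y) :
    Av N (fun Y => ind (Part σ f k Y) * Δ' Y) = Av N (fun Y => ind (Part σ f k Y) * Δ Y) := by
  congr 1
  funext Y
  cases h : Part σ f k Y
  · simp
  · rw [hΔ Y (Part_ne hf hk hne h)]

theorem Inv.congrD {σ : List Fr} {u b : ℕ} {y : ℝ} (h : Inv N Δ C σ u y) (hσ : Ch σ b)
    (hΔ : ∀ Y, Gb σ Y = false → Δ' Y = Δ Y) : Inv N Δ' C σ u y := by
  induction σ generalizing u y b with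
  | nil => exact h
  | cons f σ ih =>
    obtain ⟨β, h1, h2, h3, h4, h5⟩ := h
    refine ⟨β, h1, fun k hk hk' => ?_, ?_, h4, ih h5 hσ.2.2 fun Y hY => hΔ Y ?_⟩
    · rw [Av_Part_congr hσ.2.1 hk' hk.ne' hΔ]
      exact h2 k hk hk'
    · refine le_trans (le_of_eq (Finset.sum_congr rfl fun k hk => ?_)) h3
      have := Finset.mem_range.1 hk
      exact Av_Part_congr hσ.2.1 (this.trans hσ.2.1) this.ne hΔ
    · rw [← Bool.not_eq_true] at hY ⊢
      exact fun h => hY (Gb_of_cons h)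

theorem Sl.mono {σ : List Fr} {u u' : ℕ} {s s' : ℝ} (h : Sl N Δ C σ u s) (hu : u ≤ u')
    (hs : s ≤ s') : Sl N Δ C σ u' s' := by
  obtain ⟨y, h1, h2⟩ := h
  exact ⟨y, h1.mono hu, by linarith⟩

theorem Sl.pop {f : Fr} {σ : List Fr} {u : ℕ} {s : ℝ} (h : Sl N Δ C (f :: σ) u s)
    (hf : f.2.2 < 2 ^ f.2.1) : ∃ y, Inv N Δ C σ f.1 y ∧ Av N (fun Y => ind (Gb σ Y) * Δ Y)
      ≤ y + kap (f :: σ) / 2 * th (f :: σ) + kap (f :: σ) * pp (f :: σ) u + s := by
  obtain ⟨y, ⟨β, h1, h2, h3, -, h5⟩, h6⟩ := h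
  refine ⟨_, h5, ?_⟩
  rw [sum_Part N σ f, ← Finset.sum_range_add_sum_Ico _ (Nat.succ_le_of_lt hf),
    Finset.sum_range_succ]
  have h7 := Finset.sum_le_card_nsmul (Finset.Ico (f.2.2 + 1) (2 ^ f.2.1))
    (fun k => Av N (fun Y => ind (Part σ f k Y) * Δ Y)) (β * aa (f :: σ))
    (fun k hk => h2 k (Finset.mem_Ico.1 hk).1 (Finset.mem_Ico.1 hk).2)
  rw [Nat.card_Ico, nsmul_eq_mul, Nat.cast_sub (Nat.succ_le_of_lt hf)] at h7
  have h8 : β * aa σ = 2 ^ f.2.1 * (β * aa (f :: σ)) := by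
    rw [aa_cons]; field_simp
  simp only [Gb_cons] at h6
  push_cast at h7
  simp only [Nat.succ_eq_add_one]
  rw [h8]
  nlinarith

theorem Sl.popAll {τ σ : List Fr} {u b : ℕ} (hσ : Ch (τ ++ σ) b) (hu : ell (τ ++ σ) ≤ u)
    (h : Sl N Δ C (τ ++ σ) u (kap (τ ++ σ) / 2 * th (τ ++ σ))) :
    Sl N Δ C σ u (kap σ / 2 * th σ) := by
  induction τ generalizing b with
  | nil => exact h
  | cons f τ ih =>
    simp only [List.cons_append] at hσ hu h
    have hu' : f.1 ≤ u := hu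
    refine ih hσ.2.2 (hσ.2.2.ell_le.trans hu') ?_
    obtain ⟨y, h1, h2⟩ := h.pop hσ.2.1
    refine ⟨_, h1.raise hu' le_rfl, ?_⟩
    have h3 := pp_cons_le (τ ++ σ) hu'
    have h4 := pp_nonneg hu
    have h5 := th_cons_le f (τ ++ σ)
    have h6 := kap_pos (τ ++ σ)
    rw [kap_cons] at h2
    nlinarith

theorem Sl.abandon {f : Fr} {σ : List Fr} {u b : ℕ} (hσ : Ch (f :: σ) b) (hu : f.1 ≤ u)
    (h : Sl N Δ C (f :: σ) u (kap (f :: σ) / 2 * th (f :: σ))) (hp : th (f :: σ) < pp (f :: σ) u)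
    (hC : ∀ i < f.1, chi C i = chi C' i) : Sl N Δ C' σ u 0 := by
  obtain ⟨y, h1, h2⟩ := h.pop hσ.2.1
  refine ⟨_, (h1.congrC hσ.2.2 hσ.2.2.ell_le hC).raise hu le_rfl, ?_⟩
  have h3 := pp_cons_le σ hu
  have h6 := kap_pos σ
  rw [kap_cons] at h2
  nlinarith

theorem Sl.next_lt {f : Fr} {σ : List Fr} {u b : ℕ} {s : ℝ} (hσ : Ch (f :: σ) b) (hb : b ≤ N)
    (hu : u ≤ N) (h : Sl N Δ C (f :: σ) u s) (hv : aa (f :: σ) / 8 < vv (f :: σ) u C)
    (hv' : vv σ u C ≤ aa σ / 8) : f.2.2 + 1 < 2 ^ f.2.1 := by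
  obtain ⟨y, ⟨β, -, -, -, h4, -⟩, -⟩ := h
  by_contra hc
  have hk : 2 ^ f.2.1 = f.2.2 + 1 := by have := hσ.2.1; omega
  rw [vv_eq C hσ hb hu] at hv
  rw [vv_eq C hσ.tail hb hu, sum_Part N σ f] at hv'
  have h5 : ∑ _k ∈ Finset.range (2 ^ f.2.1), aa (f :: σ) / 8 <
      ∑ k ∈ Finset.range (2 ^ f.2.1),
        Av N (fun Y => ind (Part σ f k Y) * ind (Un u (chi C) Y)) := by
    refine Finset.sum_lt_sum_of_nonempty ⟨0, by simp⟩ fun k hk' => ?_
    rw [hk, Finset.mem_range, Nat.lt_succ_iff] at hk'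
    rcases hk'.lt_or_eq with h | h
    · exact h4 k h
    · rw [h]; exact hv
  rw [Finset.sum_const, Finset.card_range, nsmul_eq_mul, aa_cons] at h5
  have : ((2 ^ f.2.1 : ℕ) : ℝ) * (aa σ / 2 ^ f.2.1 / 8) = aa σ / 8 := by
    push_cast; field_simp
  linarith

theorem Sl.round {f : Fr} {σ H : List Fr} {u b : ℕ} (hσ : Ch (f :: σ) b) (hb : b ≤ N)
    (hN : u ≤ N) (hu : f.1 ≤ u) (hH : Mk H (f :: σ))
    (h : Sl N Δ C (f :: σ) u (kap (f :: σ) / 2 * th (f :: σ))) (hp : pp (f :: σ) u ≤ th (f :: σ))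
    (hv : aa (f :: σ) / 8 < vv (f :: σ) u C) (hk : f.2.2 + 1 < 2 ^ f.2.1) :
    Sl N (fun Y => Δ Y + ind (Gb (f :: σ) Y) * (w u (xr Y (mask H)) - w f.1 (xr Y (mask H)))) C
      (nxt f :: σ) u 0 := by
  obtain ⟨y, ⟨β, h1, h2, h3, h4, h5⟩, h6⟩ := h
  set Δ' : Cs → ℝ :=
    fun Y => Δ Y + ind (Gb (f :: σ) Y) * (w u (xr Y (mask H)) - w f.1 (xr Y (mask H))) with hΔ'
  have hΔ : ∀ Y, Gb (f :: σ) Y = false → Δ' Y = Δ Y := fun Y hY => by simp [hΔ', hY]
  have hp0 : 0 ≤ pp (f :: σ) u := pp_nonneg hu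
  have hκ := kap_pos (f :: σ)
  have hκ1 := kap_le_one (f :: σ)
  have hθ := th_pos (f :: σ)
  have hcur : Av N (fun Y => ind (Part σ f f.2.2 Y) * Δ' Y)
      = Av N (fun Y => ind (Gb (f :: σ) Y) * Δ Y) + pp (f :: σ) u := by
    rw [pp_eq hσ hb hN, ← Av_xr (((hσ.depS.mono hb).comp ind).comp₂
      (((w_dep u).mono hN).comp₂ ((w_dep _).mono (hσ.ell_le.trans hb)) (· - ·)) (· * ·)) (mask H),
      ← Av_add]
    congr 1
    funext Y
    rw [← Gb_eq_Sb hH, ← Gb_cons, hΔ', ell_cons]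
    dsimp only
    cases Gb (f :: σ) Y <;> simp
  refine ⟨β * aa (f :: σ), ⟨β, ?_, fun k hk1 hk2 => ?_, ?_, fun k hk1 => ?_, ?_⟩, ?_⟩
  · exact le_add_of_nonneg_right (mul_nonneg (kap_pos _).le (pp_nonneg hu))
  · have hk3 : f.2.2 < k := (Nat.lt_succ_self _).trans hk1
    exact (Av_Part_congr hσ.2.1 hk2 hk3.ne' hΔ).trans_le (h2 k hk3 hk2)
  · change ∑ k ∈ Finset.range (f.2.2 + 1), Av N (fun Y => ind (Part σ f k Y) * Δ' Y)
      ≤ ((f.2.2 + 1 : ℕ) : ℝ) * (β * aa (f :: σ)) + kap (f :: σ) / 2 * th (nxt f :: σ)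
    rw [Finset.sum_range_succ, hcur, th_nxt σ hσ.2.1]
    have h7 : ∑ k ∈ Finset.range f.2.2, Av N (fun Y => ind (Part σ f k Y) * Δ' Y)
        = ∑ k ∈ Finset.range f.2.2, Av N (fun Y => ind (Part σ f k Y) * Δ Y) := by
      refine Finset.sum_congr rfl fun k hk => ?_
      have := Finset.mem_range.1 hk
      exact Av_Part_congr hσ.2.1 (this.trans hσ.2.1) this.ne hΔ
    rw [h7]
    push_cast
    nlinarith
  · rcases (Nat.lt_succ_iff.1 hk1).lt_or_eq with h | h
    · exact h4 k h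
    · rw [vv_eq C hσ hb hN] at hv
      rw [h]; exact hv
  · refine h5.congrD hσ.2.2 fun Y hY => hΔ Y ?_
    rw [← Bool.not_eq_true] at hY ⊢
    exact fun h => hY (Gb_of_cons h)
  · rw [add_zero]
    exact (Av_Part_congr hσ.2.1 hk (Nat.succ_ne_self _) hΔ).trans_le
      (h2 _ (Nat.lt_succ_self _) hk)

theorem Sl.push {g : Fr} {σ : List Fr} (hσ : Ch σ g.1) (hN : g.1 + g.2.1 ≤ N) (hg : g.2.2 = 0)
    (hΔ : Dep g.1 Δ) (h : Sl N Δ C σ g.1 0) (hC : ∀ i < g.1, chi C i = chi C' i) :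
    Sl N Δ C' (g :: σ) g.1 0 := by
  obtain ⟨y, h1, h2⟩ := h
  set β := Av N (fun Y => ind (Gb σ Y) * Δ Y) / aa σ with hβ
  have h3 : β * aa σ = Av N (fun Y => ind (Gb σ Y) * Δ Y) := div_mul_cancel₀ _ (aa_pos σ).ne'
  have h4 : ∀ k, Av N (fun Y => ind (Part σ g k Y) * Δ Y) = β * aa (g :: σ) := by
    intro k
    rw [Av_Part hσ hN k hΔ, ← h3, aa_cons]
    ring
  refine ⟨β * aa (g :: σ), ⟨β, ?_, fun k _ _ => (h4 k).le, ?_, fun k hk => ?_, ?_⟩, ?_⟩
  · exact le_add_of_nonneg_right (mul_nonneg (kap_pos _).le (pp_nonneg le_rfl))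
  · rw [hg]
    simp only [Finset.range_zero, Finset.sum_empty, Nat.cast_zero, zero_mul, zero_add]
    exact mul_nonneg (by have := kap_pos (g :: σ); positivity) (th_pos _).le
  · omega
  · exact (h1.raise le_rfl (by rw [h3]; linarith)).congrC hσ hσ.ell_le hC
  · rw [add_zero]; exact (h4 _).le

theorem Inv.bound {σ : List Fr} {u u' b : ℕ} {y : ℝ} (h : Inv N Δ C σ u' y) (hσ : Ch σ b)
    (hu : ell σ ≤ u') (hu' : u' ≤ u) (hO : OK u C' σ) : y ≤ aa σ / 8 - th σ := by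
  induction σ generalizing u' y b with
  | nil =>
    have := pp_nil_le u'
    simp only [Inv, kap_nil, one_mul] at h
    rw [aa_nil, th_nil]
    linarith
  | cons f σ ih =>
    obtain ⟨β, h1, -, -, -, h5⟩ := h
    have h2 := ih h5 hσ.2.2 hσ.2.2.ell_le (le_trans hu hu') hO.tail
    have h3 : pp (f :: σ) u' ≤ th (f :: σ) := (pp_mono _ hu').trans (ple_of_ptest hO.1)
    have h4 := pp_nonneg hu
    have h6 := kap_le_one (f :: σ)
    have h7 := th_cons f σ
    have h8 : β * aa (f :: σ) ≤ aa (f :: σ) / 8 - th σ / 2 ^ f.2.1 := by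
      rw [aa_cons, ← mul_div_assoc, div_right_comm, ← sub_div]
      gcongr
    nlinarith

theorem Av_Sw_bound {σ : List Fr} {u u' b : ℕ} (hσ : Ch σ b) (hb : b ≤ N) (hN : u ≤ N)
    (hu : ell σ ≤ u') (hu' : u' ≤ u) (hO : OK u C σ) :
    Av N (fun X => ind (Sb σ X) * w u' X) ≤ aa σ / 8 - th σ := by
  induction σ generalizing u' b with
  | nil =>
    simp only [Sb_nil, ind_true, one_mul, aa_nil, th_nil]
    exact (Av_w (hu'.trans hN)).trans (by norm_num)
  | cons f σ ih =>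
    have hf : f.1 ≤ b := hσ.ell_le
    have h2 := ih hσ.2.2 (hf.trans hb) hσ.2.2.ell_le (le_trans hu hu') hO.tail
    have h3 : pp (f :: σ) u' ≤ th (f :: σ) := (pp_mono _ hu').trans (ple_of_ptest hO.1)
    have h4 : Av N (fun X => ind (Sb (f :: σ) X) * w u' X)
        = pp (f :: σ) u' + Av N (fun X => ind (Sb σ X) * w f.1 X) / 2 ^ f.2.1 := by
      rw [← Av_Sb_cons hσ.2.2 (hσ.1.trans hb) (w_dep _), pp_eq hσ hb (hu'.trans hN), ← Av_add]
      congr 1
      funext X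
      rw [ell_cons]; ring
    have h7 := th_cons f σ
    have h8 : Av N (fun X => ind (Sb σ X) * w f.1 X) / 2 ^ f.2.1
        ≤ aa (f :: σ) / 8 - th σ / 2 ^ f.2.1 := by
      rw [aa_cons, div_right_comm, ← sub_div]
      gcongr
    linarith

/-- The last time relevant for the candidate followed by `Y`. -/
def tm : List Fr → ℕ → Cs → ℕ
  | [], u, _ => u
  | f :: σ, u, Y => bif Gb (f :: σ) Y then u else tm σ f.1 Y

theorem tm_of_G {σ : List Fr} {u : ℕ} {Y : Cs} (h : Gb σ Y = true) : tm σ u Y = u := by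
  cases σ with
  | nil => rfl
  | cons f σ => simp [tm, h]

theorem tm_mono (σ : List Fr) {u u' : ℕ} (h : u ≤ u') (Y : Cs) : tm σ u Y ≤ tm σ u' Y := by
  cases σ with
  | nil => exact h
  | cons f σ => cases hG : Gb (f :: σ) Y <;> simp [tm, hG, h]

theorem tm_le {σ : List Fr} {u b : ℕ} (hσ : Ch σ b) (hu : ell σ ≤ u) (Y : Cs) : tm σ u Y ≤ u := by
  induction σ generalizing u b with
  | nil => exact le_rfl
  | cons f σ ih =>
    cases hG : Gb (f :: σ) Y
    · simp only [tm, hG, cond_false]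
      exact (ih hσ.2.2 hσ.2.2.ell_le).trans hu
    · simp [tm, hG]

theorem tm_pop {τ σ : List Fr} {u b : ℕ} (hσ : Ch (τ ++ σ) b) (hu : ell (τ ++ σ) ≤ u) (Y : Cs) :
    tm (τ ++ σ) u Y ≤ tm σ u Y := by
  induction τ generalizing b with
  | nil => exact le_rfl
  | cons f τ ih =>
    simp only [List.cons_append] at hσ hu ⊢
    have hu' : f.1 ≤ u := hu
    refine le_trans ?_ (ih hσ.2.2 (hσ.2.2.ell_le.trans hu'))
    cases hG : Gb (f :: (τ ++ σ)) Y
    · simp only [tm, hG, cond_false]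
      exact tm_mono _ hu' Y
    · rw [tm_of_G hG, tm_of_G (Gb_of_cons hG)]

theorem tm_cons_ge {f : Fr} {σ : List Fr} {u : ℕ} (hσ : Ch σ f.1) (hu : f.1 ≤ u) (Y : Cs) :
    tm σ f.1 Y ≤ tm (f :: σ) u Y := by
  cases hG : Gb (f :: σ) Y
  · simp [tm, hG]
  · rw [tm_of_G hG]
    exact (tm_le hσ hσ.ell_le Y).trans hu

end Pool.Agent.Lib.MP_3d42d9_lc
end
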