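import Mathlib
import Pool.Agent.Lib.MP_3d42d9_lc.Inv

-- part Pool.Agent.Lib.MP_3d42d9_lc.Run
section

namespace Pool.Agent.Lib.MP_3d42d9_lc

def Cc (C : List ℕ) (σ : List Fr) : Prop := ∀ f ∈ σ, f.1 ∈ C ∧ f.2.1 = num f.1 (chi C) + 1

structure Str (t : ℕ) (s : St) : Prop where
  ch : Ch s.1 s.2.2.2
  el : ell s.1 ≤ t
  mk' : Mk s.2.2.1 s.1
  cc : Cc s.2.1 s.1
  le : ∀ j ∈ s.2.1, j ≤ t

def Ana (N t : ℕ) (s : St) (R : ℕ → Cs → Cs → Bool) : Prop :=
  ∃ Δ : Cs → ℝ, Dep (max t s.2.2.2) Δ ∧ Sl N Δ s.2.1 s.1 t 0 ∧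
    ∀ Y, nu N (fun q Z => R q Y Z && !Et q (tm s.1 t Y) (xr Y (mask s.2.2.1)) Z) ≤ Δ Y

def Rb (q t : ℕ) (Y Z : Cs) : Bool :=
  (List.range (t + 1)).any fun s => Gb (st s).1 Y && Et q s (xr Y (mask (st s).2.2.1)) Z

theorem nu_false (N : ℕ) : nu N (fun _ _ => false) = 0 := by simp [nu, Av_const]

theorem cov_step {N : ℕ} {R E E' E'' X : ℕ → Cs → Bool} {G : Bool} {d : ℝ}
    (h : nu N (fun q Z => R q Z && !E q Z) ≤ d) (hG : G = true → E'' = E')
    (hE : ∀ q Z, E q Z = true → E' q Z = true ∨ X q Z = true) :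
    nu N (fun q Z => (R q Z || (G && E'' q Z)) && !E' q Z) ≤ d + nu N X := by
  refine (nu_le_add N (h := fun q Z => R q Z && !E q Z) (k := X) fun q Z hZ => ?_).trans
    (by linarith)
  have h1 := hE q Z
  cases G
  · revert h1 hZ
    cases R q Z <;> cases E q Z <;> cases E' q Z <;> simp
  · rw [hG rfl] at hZ
    revert h1 hZ
    cases R q Z <;> cases E q Z <;> cases E' q Z <;> simp

theorem cov_step0 {N : ℕ} {R E E' E'' : ℕ → Cs → Bool} {G : Bool} {d : ℝ}
    (h : nu N (fun q Z => R q Z && !E q Z) ≤ d) (hG : G = true → E'' = E')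
    (hE : ∀ q Z, E q Z = true → E' q Z = true) :
    nu N (fun q Z => (R q Z || (G && E'' q Z)) && !E' q Z) ≤ d := by
  have := cov_step (X := fun _ _ => false) h hG (fun q Z hZ => Or.inl (hE q Z hZ))
  rwa [nu_false, add_zero] at this

theorem Et_transfer {q a b l : ℕ} {Y m m' Z : Cs} (ha : a ≤ l) (hab : a ≤ b)
    (hm : ∀ i < l, m i = m' i) (h : Et q a (xr Y m) Z = true) : Et q b (xr Y m') Z = true := by
  refine Et_mono hab ?_
  rw [← h]
  exact Et_depX q a Z _ _ fun i hi => by simp only [xr, hm i (hi.trans_le ha)]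

theorem Cc.suffix {C : List ℕ} {τ σ : List Fr} (h : Cc C (τ ++ σ)) : Cc C σ :=
  fun f hf => h f (List.mem_append_right _ hf)

theorem Mk.suffix {H τ σ : List Fr} (h : Mk H (τ ++ σ)) : Mk H σ :=
  fun f hf => h f (List.mem_append_right _ hf)

theorem Cc.congr {C C' : List ℕ} {σ : List Fr} {l : ℕ} (h : Cc C σ) (hσ : Ch σ l)
    (hC : ∀ i < l, chi C i = chi C' i) : Cc C' σ := by
  intro f hf
  have h1 := hσ.le f hf
  have h2 := (h f hf).2
  refine ⟨?_, ?_⟩
  · rw [← chi_iff, ← hC _ (by omega), chi_iff]; exact (h f hf).1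
  · rw [h2, num_dep f.1 _ _ fun i hi => hC i (by omega)]

theorem Tr.L_mono {u : ℕ} {s s' : St} (h : Tr u s s') : s.2.2.2 ≤ s'.2.2.2 := by
  cases h with
  | push σ C H L h1 h2 => exact h2.trans (Nat.le_add_right _ _)
  | _ => exact le_rfl

theorem Tr.step_inv {t : ℕ} {s s' : St} {R : ℕ → Cs → Cs → Bool} (h : Tr (t + 1) s s')
    (hS : Str t s) (hA : ∀ N, max t s.2.2.2 ≤ N → Ana N t s R) :
    Str (t + 1) s' ∧ ∀ N, max (t + 1) s'.2.2.2 ≤ N → Ana N (t + 1) s'
      (fun q Y Z => R q Y Z || (Gb s'.1 Y && Et q (t + 1) (xr Y (mask s'.2.2.1)) Z)) := by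
  have hL := h.L_mono
  have hG : ∀ (σ : List Fr) (m Y : Cs), Gb σ Y = true →
      (fun q => Et q (t + 1) (xr Y m)) = fun q => Et q (tm σ (t + 1) Y) (xr Y m) :=
    fun σ m Y hY => by rw [tm_of_G hY]
  cases h with
  | abandon τ f σ C H L hO hp =>
    obtain ⟨h1, h2, h3, h4, h5⟩ := hS
    dsimp only at h1 h2 h3 h4 h5 hA ⊢
    have hf : Ch (f :: σ) L := h1.suffix
    have hft : f.1 ≤ t := h1.ell_suffix.trans h2
    have hC : ∀ i < f.1, chi C i = chi (C.filter fun j => Nat.blt j f.1) i :=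
      fun i hi => (chi_filter_lt C hi).symm
    refine ⟨⟨hf.tail, hf.2.2.ell_le.trans (by omega), fun g hg => h3.suffix g (by simp [hg]),
      Cc.congr (fun g hg => h4.suffix g (by simp [hg])) hf.2.2 hC,
      fun j hj => (h5 j (List.mem_of_mem_filter hj)).trans (by omega)⟩, fun N hN => ?_⟩
    obtain ⟨Δ, d1, d2, d3⟩ := hA N (by omega)
    dsimp only at d1 d2 d3
    refine ⟨Δ, d1.mono (by simp only; omega), ?_, fun Y => ?_⟩
    · refine Sl.abandon hf (by omega) (Sl.popAll h1 (h2.trans (Nat.le_succ t))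
        (d2.mono (by omega) ?_)) (ptest_iff.1 hp) hC
      exact mul_nonneg (by have := kap_pos (τ ++ f :: σ); positivity) (th_pos _).le
    · refine cov_step0 (d3 Y) (hG _ _ Y) fun q Z => Et_mono ?_
      have h6 : Ch ((τ ++ [f]) ++ σ) L := by simpa using h1
      have h7 := tm_pop h6 (u := t) (by simpa using h2) Y
      simp only [List.append_assoc, List.singleton_append] at h7
      exact h7.trans (tm_mono _ (by omega) Y)
  | round τ f σ C H L hO hp hv =>
    obtain ⟨h1, h2, h3, h4, h5⟩ := hS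
    dsimp only at h1 h2 h3 h4 h5 hA ⊢
    have hf : Ch (f :: σ) L := h1.suffix
    have hft : f.1 ≤ t := h1.ell_suffix.trans h2
    have hsl : ∀ {N Δ}, Sl N Δ C (τ ++ f :: σ) t 0 →
        Sl N Δ C (f :: σ) (t + 1) (kap (f :: σ) / 2 * th (f :: σ)) := by
      intro N Δ d2
      refine Sl.popAll h1 (by omega) (d2.mono (by omega) ?_)
      exact mul_nonneg (by have := kap_pos (τ ++ f :: σ); positivity) (th_pos _).le
    have hk : f.2.2 + 1 < 2 ^ f.2.1 := by
      obtain ⟨Δ, -, d2, -⟩ := hA (t + 1 + L) (by omega)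
      exact Sl.next_lt hf (by omega) (by omega) (hsl d2) (vtest_iff.1 hv) hO.vle
    have hm : ∀ i < f.1, mask H i = mask (nxt f :: H) i := fun i hi =>
      (mask_cons_lt (nxt f) H hi).symm
    refine ⟨⟨⟨hf.1, hk, hf.2.2⟩, hft.trans (by omega),
      Mk.cons (fun g hg => h3.suffix g (by simp [hg])) hf.2.2, ?_,
      fun j hj => (h5 j hj).trans (by omega)⟩, fun N hN => ?_⟩
    · intro g hg
      rcases List.mem_cons.1 hg with rfl | hg
      · exact h4.suffix f (by simp)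
      · exact h4.suffix g (by simp [hg])
    obtain ⟨Δ, d1, d2, d3⟩ := hA N (by omega)
    dsimp only at d1 d2 d3
    refine ⟨_, ?_, Sl.round hf (by omega) (by omega) (by omega) h3.suffix (hsl d2)
      (ple_of_ptest hp) (vtest_iff.1 hv) hk, fun Y => ?_⟩
    · exact (d1.mono (by simp only; omega)).comp₂
        (((hf.depG.mono (by simp only; omega)).comp ind).comp₂
          ((((w_dep _).mono (by simp only; omega)).xr _).comp₂
            (((w_dep _).mono (by simp only; omega)).xr _) (· - ·)) (· * ·)) (· + ·)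
    · have h6 : tm σ f.1 Y ≤ tm (nxt f :: σ) (t + 1) Y :=
        tm_cons_ge (f := nxt f) hf.2.2 (hft.trans (by omega)) Y
      have h7 : tm (τ ++ f :: σ) t Y ≤ tm (f :: σ) t Y := tm_pop h1 h2 Y
      dsimp only
      cases hY : Gb (f :: σ) Y
      · simp only [ind_false, zero_mul, add_zero]
        have h8 : tm (f :: σ) t Y = tm σ f.1 Y := by simp [tm, hY]
        refine cov_step0 (d3 Y) (hG _ _ Y) fun q Z => Et_transfer (l := f.1) ?_ ?_ hm
        · exact h7.trans (h8.le.trans (tm_le hf.2.2 hf.2.2.ell_le Y))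
        · exact h7.trans (h8.le.trans h6)
      · simp only [ind_true, one_mul]
        rw [tm_of_G (Gb_of_cons hY)] at h6
        rw [tm_of_G hY] at h7
        rw [w_eq (N := N) (by omega), w_eq (N := N) (by omega),
          ← nu_diff N fun _ _ => Et_mono (by omega)]
        refine cov_step (d3 Y) (hG _ _ Y) fun q Z hZ => ?_
        cases h9 : Et q f.1 (xr Y (mask H)) Z
        · right
          simp only [Bool.not_false, Bool.and_true]
          exact Et_mono (by omega) hZ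
        · exact Or.inl (Et_transfer le_rfl h6 hm h9)
  | push σ C H L hO hu =>
    obtain ⟨h1, h2, h3, h4, h5⟩ := hS
    dsimp only at h1 h2 h3 h4 h5 hA ⊢
    have hσ : Ch σ (newFr (t + 1) C).1 := h1.mono hu
    have hC : ∀ i < t + 1, chi C i = chi ((t + 1) :: C) i :=
      fun i hi => (chi_cons_ne C hi.ne).symm
    have hm : ∀ i < t + 1, mask H i = mask (newFr (t + 1) C :: H) i := fun i hi =>
      (mask_cons_lt (newFr (t + 1) C) H hi).symm
    refine ⟨⟨⟨le_rfl, Nat.two_pow_pos _, hσ⟩, le_rfl, Mk.cons h3 hσ, ?_, ?_⟩, fun N hN => ?_⟩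
    · intro g hg
      rcases List.mem_cons.1 hg with rfl | hg
      · exact ⟨List.mem_cons_self, congrArg (· + 1) (num_dep (t + 1) _ _ hC)⟩
      · exact (h4.congr hσ hC) g hg
    · intro j hj
      rcases List.mem_cons.1 hj with rfl | hj
      · exact le_rfl
      · exact (h5 j hj).trans (by omega)
    obtain ⟨Δ, d1, d2, d3⟩ := hA N (by omega)
    dsimp only at d1 d2 d3
    have d4 : Dep (t + 1) Δ := d1.mono (by omega)
    refine ⟨Δ, d4.mono (by simp only; omega), ?_, fun Y => ?_⟩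
    · exact Sl.push (g := newFr (t + 1) C) hσ (le_trans (le_max_right _ _) hN) rfl d4
        (d2.mono (Nat.le_succ t) le_rfl) hC
    · refine cov_step0 (d3 Y) (hG _ _ Y) fun q Z => Et_transfer (l := t + 1) ?_ ?_ hm
      · exact (tm_le h1 h2 Y).trans (by omega)
      · exact (tm_mono σ (Nat.le_succ t) Y).trans
          (tm_cons_ge (f := newFr (t + 1) C) hσ le_rfl Y)
  | wait σ C H L hO hu =>
    obtain ⟨h1, h2, h3, h4, h5⟩ := hS
    dsimp only at h1 h2 h3 h4 h5 hA ⊢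
    refine ⟨⟨h1, h2.trans (by omega), h3, h4, fun j hj => (h5 j hj).trans (by omega)⟩,
      fun N hN => ?_⟩
    obtain ⟨Δ, d1, d2, d3⟩ := hA N (by omega)
    dsimp only at d1 d2 d3
    exact ⟨Δ, d1.mono (by simp only; omega), d2.mono (Nat.le_succ t) le_rfl, fun Y =>
      cov_step0 (d3 Y) (hG _ _ Y) fun q Z => Et_mono (tm_mono σ (Nat.le_succ t) Y)⟩

theorem Rb_succ (q t : ℕ) (Y Z : Cs) : Rb q (t + 1) Y Z = (Rb q t Y Z ||
    (Gb (st (t + 1)).1 Y && Et q (t + 1) (xr Y (mask (st (t + 1)).2.2.1)) Z)) := by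
  simp [Rb, List.range_succ (n := t + 1)]

theorem Rb_iff {q t : ℕ} {Y Z : Cs} : Rb q t Y Z = true ↔
    ∃ s ≤ t, Gb (st s).1 Y = true ∧ Et q s (xr Y (mask (st s).2.2.1)) Z = true := by
  simp [Rb]

theorem run_inv (t : ℕ) : Str t (st t) ∧
    ∀ N, max t (st t).2.2.2 ≤ N → Ana N t (st t) (fun q => Rb q t) := by
  induction t with
  | zero =>
    refine ⟨⟨trivial, le_rfl, by simp [st, Mk], by simp [st, Cc], by simp [st]⟩, fun N _ => ?_⟩
    refine ⟨fun _ => 0, fun _ _ _ => rfl, ⟨0, ?_, by simp [Av_const]⟩, fun Y => ?_⟩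
    · exact mul_nonneg (kap_pos _).le (pp_nonneg le_rfl)
    · rw [← nu_false N]
      refine nu_mono N fun q Z h => ?_
      rw [Bool.and_eq_true, Rb_iff] at h
      obtain ⟨⟨s, hs, -, h⟩, -⟩ := h
      have := (Et_iff.1 h).1
      omega
  | succ t ih =>
    have := (tr_st t).step_inv ih.1 ih.2
    refine ⟨this.1, fun N hN => ?_⟩
    have h2 := this.2 N hN
    simp only [← Rb_succ] at h2
    exact h2

theorem str_st (t : ℕ) : Str t (st t) := (run_inv t).1

noncomputable def DD (t : ℕ) (Y : Cs) : ℝ := nu t (fun q => Rb q t Y)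

theorem Rb_depZ (q t : ℕ) (Y : Cs) : Dep t (Rb q t Y) := by
  intro Z Z' H
  rw [Bool.eq_iff_iff, Rb_iff, Rb_iff]
  refine exists_congr fun s => and_congr_right fun hs => ?_
  rw [(Et_depZ q s _).mono hs Z Z' H]

theorem L_mono {s t : ℕ} (h : s ≤ t) : (st s).2.2.2 ≤ (st t).2.2.2 := by
  induction t, h using Nat.le_induction with
  | base => exact le_rfl
  | succ t _ ih => exact ih.trans (tr_st t).L_mono

theorem Rb_depY (q t : ℕ) (Z : Cs) : Dep (max t (st t).2.2.2) (fun Y => Rb q t Y Z) := by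
  intro Y Y' H
  rw [Bool.eq_iff_iff, Rb_iff, Rb_iff]
  refine exists_congr fun s => and_congr_right fun hs => ?_
  rw [((str_st s).ch.depG.mono ((L_mono hs).trans (le_max_right _ _))) Y Y' H,
    show Et q s (xr Y _) Z = Et q s (xr Y' _) Z from
      (((Et_depX q s Z).mono (hs.trans (le_max_left _ _))).xr _) Y Y' H]

theorem DD_eq {t N : ℕ} (hN : t ≤ N) (Y : Cs) : DD t Y = nu N (fun q => Rb q t Y) := by
  unfold DD nu
  rw [← Finset.sum_subset (Finset.range_mono hN)]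
  · refine Finset.sum_congr rfl fun q _ => ?_
    rw [Av_stab ((Rb_depZ q t Y).comp ind) hN]
  · intro q _ hq
    have : ∀ Z, Rb q t Y Z = false := by
      intro Z
      rw [← Bool.not_eq_true, Rb_iff]
      rintro ⟨s, hs, -, h⟩
      exact hq (Finset.mem_range.2 ((Et_iff.1 h).1.trans_le hs))
    simp [this, Av_const]

theorem Rb_mono {q t t' : ℕ} {Y Z : Cs} (h : t ≤ t') (H : Rb q t Y Z = true) :
    Rb q t' Y Z = true := by
  rw [Rb_iff] at H ⊢
  obtain ⟨s, hs, H⟩ := H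
  exact ⟨s, hs.trans h, H⟩

theorem DD_mono {t t' : ℕ} (h : t ≤ t') (Y : Cs) : DD t Y ≤ DD t' Y := by
  rw [DD_eq h]
  exact nu_mono _ fun _ _ => Rb_mono h

theorem DD_dep (t : ℕ) : Dep (max t (st t).2.2.2) (DD t) := by
  intro Y Y' H
  unfold DD
  congr 1
  funext q Z
  exact Rb_depY q t Z Y Y' H

theorem exists_point {t : ℕ} (hO : OK (t + 1) (st t).2.1 (st t).1) :
    ∃ Y, Gb (st t).1 Y = true ∧ DD t Y ≤ 1 / 2 ∧ Un (t + 1) (chi (st t).2.1) Y = false := by
  obtain ⟨hS, hA⟩ := run_inv t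
  set N := t + 1 + (st t).2.2.2 with hN
  obtain ⟨Δ, -, ⟨y, d1, d2⟩, d3⟩ := hA N (by omega)
  have hb : (st t).2.2.2 ≤ N := by omega
  have h1 := d1.bound hS.ch hS.el (Nat.le_succ t) hO
  have h2 := Av_Sw_bound hS.ch hb (by omega) hS.el (Nat.le_succ t) hO
  have h3 := hO.vle
  rw [vv_eq _ hS.ch hb (by omega)] at h3
  rw [← Av_xr (((hS.ch.depS.mono hb).comp ind).comp₂ ((w_dep t).mono (by omega)) (· * ·))
    (mask (st t).2.2.1)] at h2
  simp only [← Gb_eq_Sb hS.mk'] at h2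
  have h4 : ∀ Y, DD t Y ≤ Δ Y + w t (xr Y (mask (st t).2.2.1)) := by
    intro Y
    rw [DD_eq (N := N) (by omega), w_eq (N := N) (by omega)]
    refine (nu_le_add N fun q Z hZ => ?_).trans (add_le_add_left (d3 Y) _)
    cases h : Et q (tm (st t).1 t Y) (xr Y (mask (st t).2.2.1)) Z
    · left; simp [hZ]
    · right; exact Et_mono (tm_le hS.ch hS.el Y) h
  have h5 : Av N (fun Y => ind (Gb (st t).1 Y) *
      (DD t Y + ind (Un (t + 1) (chi (st t).2.1) Y))) < 1 / 2 * Av N (fun Y => ind (Gb (st t).1 Y)) := by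
    rw [Av_Gb hS.ch hb]
    have h6 : Av N (fun Y => ind (Gb (st t).1 Y) *
        (DD t Y + ind (Un (t + 1) (chi (st t).2.1) Y))) ≤ Av N (fun Y =>
          ind (Gb (st t).1 Y) * Δ Y + ind (Gb (st t).1 Y) * w t (xr Y (mask (st t).2.2.1))
          + ind (Gb (st t).1 Y) * ind (Un (t + 1) (chi (st t).2.1) Y)) := by
      refine Av_mono N fun Y => ?_
      have := mul_le_mul_of_nonneg_left (h4 Y) (ind_nonneg (Gb (st t).1 Y))
      linarith
    rw [Av_add, Av_add] at h6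
    have h7 := aa_pos (st t).1
    have h8 := th_pos (st t).1
    linarith
  obtain ⟨Y, hY, hY'⟩ := exists_of_Av_lt h5
  have h9 : 0 ≤ DD t Y := nu_nonneg _ _
  refine ⟨Y, hY, ?_, ?_⟩
  · have := ind_nonneg (Un (t + 1) (chi (st t).2.1) Y)
    linarith
  · cases h : Un (t + 1) (chi (st t).2.1) Y
    · rfl
    · rw [h, ind_true] at hY'; linarith

end Pool.Agent.Lib.MP_3d42d9_lc
end

-- part Pool.Agent.Lib.MP_3d42d9_lc.Limit
section

namespace Pool.Agent.Lib.MP_3d42d9_lc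

theorem suffix_split {τ ρ σ σ' : List Fr} {f : Fr} (h : τ ++ f :: σ' = ρ ++ σ) (h' : σ <:+ σ') :
    ∃ ρ', σ' = ρ' ++ σ ∧ ρ = τ ++ f :: ρ' := by
  obtain ⟨ρ', rfl⟩ := h'
  refine ⟨ρ', rfl, ?_⟩
  have : (τ ++ f :: ρ') ++ σ = ρ ++ σ := by simpa using h
  exact (List.append_cancel_right this).symm

theorem cons_suffix_unique {g g' : Fr} {σ l : List Fr} (h : g :: σ <:+ l) (h' : g' :: σ <:+ l) :
    g = g' := by
  have := (List.suffix_of_suffix_length_le h h' (by simp)).eq_of_length (by simp)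
  exact (List.cons.inj this).1

theorem not_cons_suffix {g : Fr} {σ : List Fr} : ¬ g :: σ <:+ σ := fun h => by
  have := h.length_le
  simp at this

theorem Tr.rel {u : ℕ} {s s' : St} {ρ σ : List Fr} (h : Tr u s s') (hs : s.1 = ρ ++ σ)
    (h' : σ <:+ s'.1) : OK u s.2.1 σ ∧
    ((∃ τ f ρ', ρ = τ ++ f :: ρ' ∧ ptest (f :: (ρ' ++ σ)) u = true ∧
        s' = (ρ' ++ σ, s.2.1.filter (fun j => Nat.blt j f.1), s.2.2.1, s.2.2.2)) ∨
      (∃ τ f ρ', ρ = τ ++ f :: ρ' ∧
        s' = (nxt f :: (ρ' ++ σ), s.2.1, nxt f :: s.2.2.1, s.2.2.2)) ∨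
      s' = (newFr u s.2.1 :: (ρ ++ σ), u :: s.2.1, newFr u s.2.1 :: s.2.2.1,
        u + (newFr u s.2.1).2.1) ∨
      (u < s.2.2.2 ∧ s' = s)) := by
  cases h with
  | abandon τ f σ' C H L hO hp =>
    obtain ⟨ρ', rfl, rfl⟩ := suffix_split hs h'
    exact ⟨hO.suffix, Or.inl ⟨τ, f, ρ', rfl, hp, rfl⟩⟩
  | round τ f σ' C H L hO hp hv =>
    rcases List.suffix_cons_iff.1 h' with h1 | h1
    · exfalso
      subst h1
      have h2 : f :: σ' <:+ τ ++ f :: σ' := List.suffix_append _ _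
      have h3 : nxt f :: σ' <:+ τ ++ f :: σ' := ⟨ρ, hs.symm⟩
      have := congrArg (fun g : Fr => g.2.2) (cons_suffix_unique h2 h3)
      simp [nxt] at this
    · obtain ⟨ρ', rfl, rfl⟩ := suffix_split hs h1
      exact ⟨hO.suffix, Or.inr (Or.inl ⟨τ, f, ρ', rfl, rfl⟩)⟩
  | push σ' C H L hO hu =>
    obtain rfl : σ' = ρ ++ σ := hs
    exact ⟨hO.suffix, Or.inr (Or.inr (Or.inl rfl))⟩
  | wait σ' C H L hO hu =>
    obtain rfl : σ' = ρ ++ σ := hs
    exact ⟨hO.suffix, Or.inr (Or.inr (Or.inr ⟨hu, rfl⟩))⟩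

def Good (σ : List Fr) (s : ℕ) : Prop := (st s).1 = σ ∧ ∀ t, s ≤ t → σ <:+ (st t).1

structure Ab (σ : List Fr) (s t : ℕ) (ρ : List Fr) : Prop where
  eq : (st t).1 = ρ ++ σ
  lt : ∀ g ∈ ρ, s < g.1
  ch : ∀ i ≤ s, chi (st t).2.1 i = chi (st s).2.1 i
  ma : ∀ i ≤ s, mask (st t).2.2.1 i = mask (st s).2.2.1 i
  nil : ρ = [] → ∀ i, chi (st t).2.1 i = chi (st s).2.1 i
  last : ∀ ρ' g, ρ = ρ' ++ [g] → ∀ i < g.1, chi (st t).2.1 i = chi (st s).2.1 i

theorem chi_false {s i : ℕ} (hi : s < i) : chi (st s).2.1 i = false := by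
  rw [← Bool.not_eq_true, chi_iff]
  intro h
  have := (str_st s).le i h
  omega

theorem Good.ab {σ : List Fr} {s : ℕ} (h : Good σ s) {t : ℕ} (ht : s ≤ t) : ∃ ρ, Ab σ s t ρ := by
  induction t, ht using Nat.le_induction with
  | base =>
    exact ⟨[], h.1, by simp, fun _ _ => rfl, fun _ _ => rfl, fun _ _ => rfl, by simp⟩
  | succ t ht ih =>
    obtain ⟨ρ, ih⟩ := ih
    have hch : Ch (ρ ++ σ) (st t).2.2.2 := ih.eq ▸ (str_st t).ch
    obtain ⟨-, ⟨τ, f, ρ', rfl, -, h1⟩ | ⟨τ, f, ρ', rfl, h1⟩ | h1 | ⟨-, h1⟩⟩ :=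
      (tr_st t).rel ih.eq (h.2 (t + 1) (by omega))
    · have hf : s < f.1 := ih.lt f (by simp)
      have hch' : Ch (ρ' ++ σ) f.1 := by
        rw [List.append_assoc] at hch
        exact hch.suffix.2.2
      refine ⟨ρ', by rw [h1], fun g hg => ih.lt g (by simp [hg]), fun i hi => ?_,
        fun i hi => by rw [h1]; exact ih.ma i hi, ?_, ?_⟩
      · rw [h1, chi_filter_lt _ (by omega)]; exact ih.ch i hi
      · rintro rfl i
        rw [h1]
        by_cases hi : i < f.1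
        · rw [chi_filter_lt _ hi]; exact ih.last τ f rfl i hi
        · rw [chi_false (by omega), ← Bool.not_eq_true, chi_iff]
          simp [Nat.blt_eq, hi]
      · rintro ρ'' g rfl i hi
        have := hch'.le g (by simp)
        rw [h1, chi_filter_lt _ (by omega)]
        exact ih.last (τ ++ f :: ρ'') g (by simp) i hi
    · have hf : s < f.1 := ih.lt f (by simp)
      refine ⟨nxt f :: ρ', by rw [h1]; rfl, fun g hg => ?_, fun i hi => by rw [h1]; exact ih.ch i hi,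
        fun i hi => ?_, by simp, ?_⟩
      · rcases List.mem_cons.1 hg with rfl | hg
        · exact hf
        · exact ih.lt g (by simp [hg])
      · rw [h1]; exact (mask_cons_lt (nxt f) _ (lt_of_le_of_lt hi hf)).trans (ih.ma i hi)
      · intro ρ'' g hg i hi
        rw [h1]
        cases ρ'' with
        | nil =>
          obtain ⟨rfl, rfl⟩ := List.cons.inj hg
          exact ih.last τ f rfl i hi
        | cons a ρ'' =>
          obtain ⟨-, rfl⟩ := List.cons.inj hg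
          exact ih.last (τ ++ f :: ρ'') g (by simp) i hi
    · refine ⟨newFr (t + 1) (st t).2.1 :: ρ, by rw [h1]; rfl, fun g hg => ?_, fun i hi => ?_,
        fun i hi => ?_, by simp, ?_⟩
      · rcases List.mem_cons.1 hg with rfl | hg
        · exact Nat.lt_succ_of_le ht
        · exact ih.lt g hg
      · rw [h1, chi_cons_ne _ (by omega)]; exact ih.ch i hi
      · rw [h1, mask_cons_lt _ _ (Nat.lt_succ_of_le (hi.trans ht))]; exact ih.ma i hi
      · intro ρ'' g hg i hi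
        rw [h1]
        cases ρ'' with
        | nil =>
          obtain ⟨rfl, rfl⟩ := List.cons.inj hg
          exact (chi_cons_ne (u := t + 1) _ (Nat.ne_of_lt hi)).trans (ih.nil rfl i)
        | cons a ρ'' =>
          obtain ⟨-, rfl⟩ := List.cons.inj hg
          have h2 := ((str_st t).cc g (by rw [ih.eq]; simp)).1
          have h3 := (str_st t).le _ h2
          rw [chi_cons_ne _ (by omega)]
          exact ih.last ρ'' g rfl i hi
    · exact ⟨ρ, by rw [h1]; exact ih.eq, ih.lt, by rw [h1]; exact ih.ch, by rw [h1]; exact ih.ma,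
        by rw [h1]; exact ih.nil, by rw [h1]; exact ih.last⟩

theorem Good.ok {σ : List Fr} {s : ℕ} (h : Good σ s) : OK (s + 1) (st s).2.1 (st s).1 := by
  rw [h.1]
  exact ((tr_st s).rel (ρ := []) h.1 (h.2 (s + 1) (by omega))).1

theorem Good.t1 {σ : List Fr} {s t : ℕ} (h : Good σ s) (ht : s ≤ t) (h0 : (st t).1 = σ) :
    (st (t + 1) = st t ∧ t + 1 < (st t).2.2.2) ∨
      (st (t + 1)).1 = newFr (t + 1) (st t).2.1 :: σ := by
  obtain ⟨-, ⟨τ, f, ρ', h1, -⟩ | ⟨τ, f, ρ', h1, -⟩ | h1 | ⟨h2, h1⟩⟩ :=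
    (tr_st t).rel (ρ := []) h0 (h.2 (t + 1) (by omega))
  · simp at h1
  · simp at h1
  · right; rw [h1]; rfl
  · exact Or.inl ⟨h1, h2⟩

theorem Good.t2 {σ : List Fr} {s t : ℕ} {g : Fr} (h : Good σ s) (ht : s ≤ t)
    (h0 : g :: σ <:+ (st t).1) : g :: σ <:+ (st (t + 1)).1 ∨ (st (t + 1)).1 = nxt g :: σ ∨
      ((st (t + 1)).1 = σ ∧ ptest (g :: σ) (t + 1) = true) := by
  obtain ⟨ρ, hρ⟩ := h0
  have h0 : (st t).1 = (ρ ++ [g]) ++ σ := by rw [← hρ]; simp
  have key : ∀ {τ ρ' : List Fr} {f : Fr}, ρ ++ [g] = τ ++ f :: ρ' →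
      (ρ' = [] ∧ f = g) ∨ ∃ ρ'', ρ' = ρ'' ++ [g] := by
    intro τ ρ' f hh
    rcases List.eq_nil_or_concat' ρ' with rfl | ⟨ρ'', a, rfl⟩
    · exact Or.inl ⟨rfl, (List.append_singleton_inj.1 hh).2.symm⟩
    · right
      have : ρ ++ [g] = (τ ++ f :: ρ'') ++ [a] := by simpa using hh
      exact ⟨ρ'', by rw [(List.append_singleton_inj.1 this).2]⟩
  obtain ⟨-, ⟨τ, f, ρ', h1, hp, h2⟩ | ⟨τ, f, ρ', h1, h2⟩ | h1 | ⟨-, h1⟩⟩ :=
    (tr_st t).rel h0 (h.2 (t + 1) (by omega))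
  · rcases key h1 with ⟨rfl, rfl⟩ | ⟨ρ'', rfl⟩
    · exact Or.inr (Or.inr ⟨by rw [h2]; rfl, hp⟩)
    · left; rw [h2]; exact ⟨ρ'', by simp⟩
  · rcases key h1 with ⟨rfl, rfl⟩ | ⟨ρ'', rfl⟩
    · exact Or.inr (Or.inl (by rw [h2]; rfl))
    · left; rw [h2]; exact ⟨nxt f :: ρ'', by simp⟩
  · left; rw [h1]; exact ⟨newFr (t + 1) (st t).2.1 :: ρ, by simp⟩
  · left; rw [h1]; exact ⟨ρ, hρ⟩

theorem num_stab {X : Cs} {s u : ℕ} (hX : ∀ i, s < i → X i = false) (hu : s + 1 ≤ u) :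
    num u X = num (s + 1) X := by
  induction u, hu using Nat.le_induction with
  | base => rfl
  | succ u hu ih => rw [num_succ, ih, hX u (by omega)]; rfl

theorem Good.above {σ : List Fr} {s t : ℕ} {g : Fr} (h : Good σ s) (ht : s ≤ t)
    (h0 : g :: σ <:+ (st t).1) :
    s < g.1 ∧ g.1 ≤ t ∧ g.2.1 = num (s + 1) (chi (st s).2.1) + 1 ∧ g.2.2 < 2 ^ g.2.1 := by
  obtain ⟨ρ, hA⟩ := h.ab ht
  obtain ⟨ρ', hρ⟩ := h0
  have h1 : ρ = ρ' ++ [g] := by
    have : ρ ++ σ = (ρ' ++ [g]) ++ σ := by rw [← hA.eq, ← hρ]; simp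
    exact List.append_cancel_right this
  have h2 : s < g.1 := hA.lt g (by simp [h1])
  have h3 := (str_st t).cc g (by rw [← hρ]; simp)
  have h4 : Ch (ρ' ++ g :: σ) (st t).2.2.2 := hρ ▸ (str_st t).ch
  refine ⟨h2, (str_st t).le _ h3.1, ?_, h4.suffix.2.1⟩
  rw [h3.2, num_dep g.1 _ _ (hA.last ρ' g h1), num_stab (fun i hi => chi_false hi) h2]

theorem Good.eventually_push {σ : List Fr} {s t : ℕ} (h : Good σ s) (ht : s ≤ t)
    (h0 : (st t).1 = σ) : ∃ r, t ≤ r ∧ (st (r + 1)).1 = newFr (r + 1) (st r).2.1 :: σ := by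
  obtain ⟨d, hd⟩ : ∃ d, (st t).2.2.2 ≤ t + d := ⟨(st t).2.2.2, by omega⟩
  induction d generalizing t with
  | zero =>
    rcases h.t1 ht h0 with ⟨-, h1⟩ | h1
    · omega
    · exact ⟨t, le_rfl, h1⟩
  | succ d ih =>
    rcases h.t1 ht h0 with ⟨h1, -⟩ | h1
    · obtain ⟨r, hr, h2⟩ := ih (t := t + 1) (by omega) (by rw [h1, h0]) (by rw [h1]; omega)
      exact ⟨r, by omega, h2⟩
    · exact ⟨t, le_rfl, h1⟩

theorem pp_cauchy (σ : List Fr) {δ : ℝ} (hδ : 0 < δ) :
    ∃ s1, ∀ a b, s1 ≤ a → pp σ b - pp σ a < δ := by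
  have hb : BddAbove (Set.range (pp σ)) := ⟨1 / 16, by rintro _ ⟨t, rfl⟩; exact pp_le σ t⟩
  obtain ⟨s1, hs1⟩ := exists_lt_of_lt_ciSup (f := pp σ) (sub_lt_self (⨆ t, pp σ t) hδ)
  refine ⟨s1, fun a b ha => ?_⟩
  have h1 := le_ciSup hb b
  have h2 := pp_mono σ ha
  linarith

theorem Good.persist {σ : List Fr} {s : ℕ} (h : Good σ s) :
    ∃ t1 l z, s ≤ t1 ∧ ∀ t, t1 ≤ t → ∃ k, (l, z, k) :: σ <:+ (st t).1 := by
  set z0 := num (s + 1) (chi (st s).2.1) + 1 with hz0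
  obtain ⟨s1, hs1⟩ := pp_cauchy σ
    (δ := (1 / 2) ^ (ex σ + z0 + 1 + (σ.length + 4) * 2 ^ z0)) (by positivity)
  have hno : ∀ t g, s ≤ t → g :: σ <:+ (st t).1 → s1 ≤ g.1 → ptest (g :: σ) (t + 1) = true →
      False := by
    intro t g ht hg h1 hp
    obtain ⟨-, h2, h3, -⟩ := h.above ht hg
    rw [ptest_iff] at hp
    have h4 := pp_cons_le (f := g) σ (u := t + 1) (by omega)
    have h5 := hs1 g.1 (t + 1) h1
    have h6 : (1 / 2 : ℝ) ^ (ex σ + z0 + 1 + (σ.length + 4) * 2 ^ z0) ≤ th (g :: σ) := by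
      rw [th, ex, h3]
      refine pow_le_pow_of_le_one (by norm_num) (by norm_num) ?_
      gcongr
      exact Nat.sub_le _ _
    linarith
  by_cases hc : ∃ t, max s s1 ≤ t ∧ (st t).1 = σ
  · obtain ⟨t, ht, h0⟩ := hc
    obtain ⟨r, hr, h1⟩ := h.eventually_push (by omega) h0
    refine ⟨r + 1, r + 1, (newFr (r + 1) (st r).2.1).2.1, by omega, fun t' ht' => ?_⟩
    induction t', ht' using Nat.le_induction with
    | base => exact ⟨0, by rw [h1]; exact List.suffix_rfl⟩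
    | succ t' ht' ih =>
      obtain ⟨k, hk⟩ := ih
      rcases h.t2 (by omega) hk with h2 | h2 | ⟨-, h2⟩
      · exact ⟨k, h2⟩
      · exact ⟨k + 1, by rw [h2]; exact List.suffix_rfl⟩
      · exact (hno t' _ (by omega) hk (by simp only; omega) h2).elim
  · push Not at hc
    obtain ⟨ρ, hρ⟩ := h.2 (max s s1) (by omega)
    rcases List.eq_nil_or_concat' ρ with rfl | ⟨ρ', g, rfl⟩
    · exact absurd hρ.symm (hc _ le_rfl)
    refine ⟨max s s1, g.1, g.2.1, by omega, fun t' ht' => ?_⟩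
    induction t', ht' using Nat.le_induction with
    | base => exact ⟨g.2.2, ρ', by rw [← hρ]; simp⟩
    | succ t' ht' ih =>
      obtain ⟨k, hk⟩ := ih
      rcases h.t2 (by omega) hk with h2 | h2 | ⟨h2, -⟩
      · exact ⟨k, h2⟩
      · exact ⟨k + 1, by rw [h2]; exact List.suffix_rfl⟩
      · exact absurd h2 (hc _ (by omega))

theorem Good.next {σ : List Fr} {s : ℕ} (h : Good σ s) : ∃ g s', s < s' ∧ Good (g :: σ) s' := by
  classical
  obtain ⟨t1, l, z, ht1, h1⟩ := h.persist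
  let P : ℕ → Prop := fun k => ∃ t, t1 ≤ t ∧ (l, z, k) :: σ <:+ (st t).1
  have hP : ∀ k, P k → k ≤ 2 ^ z := by
    rintro k ⟨t, ht, hk⟩
    exact (h.above (by omega) hk).2.2.2.le
  obtain ⟨k0, hk0⟩ := h1 t1 le_rfl
  have hk : P (Nat.findGreatest P (2 ^ z)) :=
    Nat.findGreatest_spec (hP k0 ⟨t1, le_rfl, hk0⟩) ⟨t1, le_rfl, hk0⟩
  set k := Nat.findGreatest P (2 ^ z) with hkdef
  obtain ⟨t2, ht2, h2⟩ := hk
  have h3 : ∀ t, t2 ≤ t → (l, z, k) :: σ <:+ (st t).1 := by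
    intro t ht
    induction t, ht using Nat.le_induction with
    | base => exact h2
    | succ t ht ih =>
      rcases h.t2 (by omega) ih with h4 | h4 | ⟨h4, -⟩
      · exact h4
      · have h5 : P (k + 1) := ⟨t + 1, by omega, by rw [h4]; exact List.suffix_rfl⟩
        have := Nat.le_findGreatest (hP _ h5) h5
        omega
      · obtain ⟨k', hk'⟩ := h1 (t + 1) (by omega)
        rw [h4] at hk'
        exact absurd hk' not_cons_suffix
  have hex : ∃ r, s ≤ r ∧ ∀ t, r ≤ t → (l, z, k) :: σ <:+ (st t).1 := ⟨t2, by omega, h3⟩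
  obtain ⟨h4, h5⟩ := Nat.find_spec hex
  have h6 : s < Nat.find hex := by
    rcases h4.lt_or_eq with h6 | h6
    · exact h6
    · have := h5 s h6.ge
      rw [h.1] at this
      exact absurd this not_cons_suffix
  refine ⟨(l, z, k), Nat.find hex, h6, ?_, h5⟩
  obtain ⟨r, hr⟩ : ∃ r, Nat.find hex = r + 1 := ⟨Nat.find hex - 1, by omega⟩
  have h7 : ¬ (l, z, k) :: σ <:+ (st r).1 := by
    intro h7
    refine Nat.find_min hex (m := r) (by omega) ⟨by omega, fun t ht => ?_⟩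
    rcases ht.lt_or_eq with ht | rfl
    · exact h5 t (by omega)
    · exact h7
  have h8 := h5 (r + 1) hr.le
  rw [hr]
  obtain ⟨ρ, hρ⟩ := h.2 r (by omega)
  rcases List.eq_nil_or_concat' ρ with rfl | ⟨ρ', g, rfl⟩
  · rcases h.t1 (t := r) (by omega) hρ.symm with ⟨h9, -⟩ | h9
    · rw [h9] at h8; exact absurd h8 h7
    · rw [h9] at h8 ⊢
      rw [cons_suffix_unique h8 List.suffix_rfl]
  · have h9 : g :: σ <:+ (st r).1 := ⟨ρ', by rw [← hρ]; simp⟩
    rcases h.t2 (by omega) h9 with h10 | h10 | ⟨h10, -⟩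
    · rw [cons_suffix_unique h8 h10] at h7; exact absurd h9 h7
    · rw [h10] at h8 ⊢
      rw [cons_suffix_unique h8 List.suffix_rfl]
    · rw [h10] at h8; exact absurd h8 not_cons_suffix

theorem exists_seq : ∃ (σ : ℕ → List Fr) (s : ℕ → ℕ) (g : ℕ → Fr), StrictMono s ∧
    (∀ j, Good (σ j) (s j)) ∧ ∀ j, σ (j + 1) = g j :: σ j := by
  have h0 : Good [] 0 := ⟨rfl, fun _ _ => List.nil_suffix⟩
  choose G S h1 h2 using fun p : {p : List Fr × ℕ // Good p.1 p.2} => p.2.next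
  let F : ℕ → {p : List Fr × ℕ // Good p.1 p.2} := fun j =>
    Nat.rec ⟨([], 0), h0⟩ (fun _ p => ⟨(G p :: p.1.1, S p), h2 p⟩) j
  exact ⟨fun j => (F j).1.1, fun j => (F j).1.2, fun j => G (F j),
    strictMono_nat_of_lt_succ fun j => h1 (F j), fun j => (F j).2, fun j => rfl⟩

end Pool.Agent.Lib.MP_3d42d9_lc
end

-- part Pool.Agent.Lib.MP_3d42d9_lc.Main
section

namespace Pool.Agent.Lib.MP_3d42d9_lc

open MeasureTheory

theorem Dep.isOpen {N : ℕ} {P : Cs → Prop} (h : Dep N P) : IsOpen {Y | P Y} := by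
  rw [isOpen_iff_forall_mem_open]
  intro Y hY
  refine ⟨Set.pi (Finset.range N : Set ℕ) (fun i => {Y i}), fun Z hZ => ?_,
    isOpen_set_pi (Finset.finite_toSet _) fun _ _ => isOpen_discrete _, fun _ _ => rfl⟩
  have : P Z = P Y := h _ _ fun i hi => hZ i (by simpa using hi)
  change P Z
  rw [this]; exact hY

theorem Dep.isClosed {N : ℕ} {P : Cs → Prop} (h : Dep N P) : IsClosed {Y | P Y} :=
  ⟨(h.comp Not).isOpen⟩

theorem num_mono (X : Cs) {u v : ℕ} (h : u ≤ v) : num u X ≤ num v X := by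
  induction v, h using Nat.le_induction with
  | base => exact le_rfl
  | succ v _ ih => rw [num_succ]; omega

theorem num_lt {X : Cs} {u v : ℕ} (h : u < v) (hu : X u = true) : num u X < num v X := by
  have := num_mono X (Nat.succ_le_of_lt h)
  rw [num_succ, hu] at this
  exact this

/-- The combinatorial content of the construction. -/
theorem exists_triple : ∃ A B C : Cs,
    (∀ t, DD t B ≤ 1 / 2) ∧ (∀ s, Un s C B = false) ∧
    (∀ n, ∃ l, C l = true ∧ n ≤ num l C ∧ blk l (num l C + 1) 0 A = true) ∧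
    ∀ n, ∃ t, n ≤ t ∧ Gb (st t).1 B = true ∧ ∀ i < t, xr B (mask (st t).2.2.1) i = A i := by
  obtain ⟨σ, s, g, hs, hG, hσ⟩ := exists_seq
  let C : Cs := fun i => chi (st (s i)).2.1 i
  let m : Cs := fun i => mask (st (s i)).2.2.1 i
  have hC : ∀ j, ∀ i ≤ s j, C i = chi (st (s j)).2.1 i := by
    intro j i hi
    obtain ⟨_, h1⟩ := (hG i).ab (le_max_left (s i) (s j))
    obtain ⟨_, h2⟩ := (hG j).ab (le_max_right (s i) (s j))
    exact (h1.ch i (hs.id_le i)).symm.trans (h2.ch i hi)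
  have hm : ∀ j, ∀ i ≤ s j, m i = mask (st (s j)).2.2.1 i := by
    intro j i hi
    obtain ⟨_, h1⟩ := (hG i).ab (le_max_left (s i) (s j))
    obtain ⟨_, h2⟩ := (hG j).ab (le_max_right (s i) (s j))
    exact (h1.ma i (hs.id_le i)).symm.trans (h2.ma i hi)
  let K : ℕ → Set Cs := fun j =>
    {Y | Gb (σ j) Y = true ∧ DD (s j) Y ≤ 1 / 2 ∧ Un (s j) C Y = false}
  have hK : ∀ j, IsClosed (K j) := by
    intro j
    refine Dep.isClosed (N := bd (σ j) + max (s j) (st (s j)).2.2.2) fun X Y H => ?_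
    rw [(dep_Gb (σ j)).mono (by omega) X Y H, (DD_dep (s j)).mono (by omega) X Y H,
      (Un_depZ (s j) C).mono (by omega) X Y H]
  have hun : ∀ {a b : ℕ} {X Y : Cs}, a ≤ b → Un b X Y = false → Un a X Y = false := by
    intro a b X Y hab h
    rw [← Bool.not_eq_true] at h ⊢
    exact fun h' => h (Un_mono hab h')
  obtain ⟨B, hB⟩ := IsCompact.nonempty_iInter_of_sequence_nonempty_isCompact_isClosed K
    (fun j Y hY => ⟨Gb_of_cons (hσ j ▸ hY.1), (DD_mono (hs.monotone (Nat.le_succ j)) Y).trans hY.2.1,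
      hun (hs.monotone (Nat.le_succ j)) hY.2.2⟩)
    (fun j => by
      obtain ⟨Y, h1, h2, h3⟩ := exists_point (hG j).ok
      refine ⟨Y, (hG j).1 ▸ h1, h2, ?_⟩
      rw [← hun (Nat.le_succ _) h3]
      exact Un_depX (s j) Y _ _ fun i hi => hC j i hi.le)
    (hK 0).isCompact hK
  have hB' : ∀ j, B ∈ K j := Set.mem_iInter.1 hB
  have hg : ∀ j, s j < (g j).1 ∧ (g j).1 ≤ s (j + 1) := by
    intro j
    have := (hG j).above (hs.monotone (Nat.le_succ j))
      (hσ j ▸ (hG (j + 1)).2 _ le_rfl)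
    exact ⟨this.1, this.2.1⟩
  have hcc : ∀ j, C (g j).1 = true ∧ (g j).2.1 = num (g j).1 C + 1 := by
    intro j
    have := (str_st (s (j + 1))).cc (g j) (by rw [(hG (j + 1)).1, hσ j]; simp)
    refine ⟨by rw [hC (j + 1) _ (hg j).2, chi_iff]; exact this.1, ?_⟩
    rw [this.2, num_dep _ C _ fun i hi => hC (j + 1) i (hi.le.trans (hg j).2)]
  refine ⟨xr B m, B, C, fun t => (DD_mono (hs.id_le t) B).trans (hB' t).2.1,
    fun t => hun (hs.id_le t) (hB' t).2.2, fun n => ⟨(g n).1, (hcc n).1, ?_, ?_⟩,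
    fun n => ⟨s n, hs.id_le n, (hG n).1 ▸ (hB' n).1, fun i hi => ?_⟩⟩
  · induction n with
    | zero => exact Nat.zero_le _
    | succ n ih => exact ih.trans_lt (num_lt ((hg n).2.trans_lt (hg (n + 1)).1) (hcc n).1)
  · rw [← (hcc n).2, blk_iff]
    intro i hi
    have h1 : Gb (g n :: σ n) B = true := hσ n ▸ (hB' (n + 1)).1
    rw [Gb_cons, Part, Bool.and_eq_true, blk_iff] at h1
    set j := n + 1 + ((g n).1 + i) with hj
    have h2 : (g n).1 + i ≤ s j := le_trans (show _ ≤ j by omega) (hs.id_le j)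
    have h3 : g n ∈ (st (s j)).1 :=
      ((hG (n + 1)).2 (s j) (hs.monotone (by omega))).subset (by rw [hσ n]; simp)
    rw [xr, h1.1 i hi, hm j _ h2, (str_st (s j)).mk' _ h3 i hi, bit_eq 0, Nat.zero_testBit]
    simp
  · simp only [xr, hm n i hi.le]

theorem ofReal_half_pow (n : ℕ) : ENNReal.ofReal ((1 / 2) ^ n) = 2⁻¹ ^ n := by
  rw [ENNReal.ofReal_pow (by norm_num), one_div, ENNReal.ofReal_inv_of_pos (by norm_num)]
  simp

theorem toC_of_mem_cyl {ρ : List Bool} {Z : Cs} (h : Z ∈ cyl ρ) {i : ℕ} (hi : i < ρ.length) :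
    toC ρ i = Z i := by
  rw [mem_cyl_iff.1 h]; exact toC_pre Z hi

theorem not_random_of_blocks {A C : Cs}
    (h : ∀ n, ∃ l, C l = true ∧ n ≤ num l C ∧ blk l (num l C + 1) 0 A = true) :
    ¬ RandomIn C A := by
  obtain ⟨f, hf, hf'⟩ := exists_recursiveIn C (Ψ := fun x a =>
    toC x (x.length - 1) && Nat.ble a.1 (num (x.length - 1) (toC x)) &&
      Nat.ble (x.length - 1 + (num (x.length - 1) (toC x) + 1)) a.2.length &&
      blk (x.length - 1) (num (x.length - 1) (toC x) + 1) 0 (toC a.2)) (by fun_prop)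
  have hnum : ∀ l, num l (toC (pre (l + 1) C)) = num l C := fun l =>
    (num_dep l).toC_pre (Nat.le_succ l) C
  intro hR
  refine hR (fun n => ⋃ ρ ∈ {ρ : List Bool | (f (n, ρ)).Dom}, cyl ρ)
    ⟨⟨f, hf, fun _ => rfl⟩, fun n => ?_⟩ (Set.mem_iInter.2 fun n => ?_)
  · let W : ℕ → Set Cs := fun i => {Z | ∃ l, C l = true ∧ num l C = i ∧ blk l (i + 1) 0 Z = true}
    have hW : ∀ i, coin (W i) ≤ 2⁻¹ ^ (i + 1) := by
      intro i
      by_cases hi : ∃ l, C l = true ∧ num l C = i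
      · obtain ⟨l, h1, h2⟩ := hi
        have h3 : W i ⊆ {Z | blk l (i + 1) 0 Z = true} := by
          rintro Z ⟨l', h4, h5, h6⟩
          obtain rfl : l' = l := by
            rcases lt_trichotomy l' l with h7 | h7 | h7
            · have := num_lt h7 h4; omega
            · exact h7
            · have := num_lt h7 h1; omega
          exact h6
        refine (measure_mono h3).trans (le_of_eq ?_)
        have h4 := Av_blk (N := l + (i + 1)) (k := 0) le_rfl (g := fun _ => 1) (fun _ _ _ => rfl)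
        simp only [one_mul, Av_const] at h4
        rw [coin_dep (dep_blk l (i + 1) 0), h4, ← ofReal_half_pow, one_div_pow]
      · have : W i = ∅ := by
          ext Z
          simp only [W, Set.mem_ofPred_eq, Set.mem_empty_iff_false, iff_false]
          rintro ⟨l, h1, h2, -⟩
          exact hi ⟨l, h1, h2⟩
        simp [this]
    have hsub : (⋃ ρ ∈ {ρ : List Bool | (f (n, ρ)).Dom}, cyl ρ) ⊆ ⋃ i, W (n + i) := by
      intro Z hZ
      simp only [Set.mem_iUnion] at hZ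
      obtain ⟨ρ, hρ, hZ⟩ := hZ
      obtain ⟨j, hj⟩ := (hf' _).1 hρ
      rcases j with - | l
      · simp [pre, toC] at hj
      simp only [length_pre, Nat.add_sub_cancel, hnum, Bool.and_eq_true, Nat.ble_eq,
        toC_pre C (Nat.lt_succ_self l)] at hj
      obtain ⟨⟨⟨h1, h2⟩, h3⟩, h4⟩ := hj
      refine Set.mem_iUnion.2 ⟨num l C - n, l, h1, by omega, ?_⟩
      rw [show n + (num l C - n) = num l C by omega, ← h4]
      exact dep_blk _ _ _ _ _ fun i hi => (toC_of_mem_cyl hZ (by omega)).symm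
    refine (measure_mono hsub).trans ((measure_iUnion_le _).trans
      ((ENNReal.tsum_le_tsum fun i => hW (n + i)).trans (le_of_eq ?_)))
    simp only [pow_add, mul_assoc]
    rw [ENNReal.tsum_mul_left, ENNReal.tsum_mul_right, ENNReal.tsum_geometric_two, pow_one,
      ENNReal.mul_inv_cancel (by norm_num) (by norm_num), mul_one]
  · obtain ⟨l, h1, h2, h3⟩ := h n
    refine Set.mem_biUnion (x := pre (l + (num l C + 1)) A) ((hf' _).2 ⟨l + 1, ?_⟩)
      (mem_cyl_pre _ _)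
    simp only [length_pre, Nat.add_sub_cancel, hnum, Bool.and_eq_true, Nat.ble_eq,
      toC_pre C (Nat.lt_succ_self l)]
    exact ⟨⟨⟨h1, h2⟩, le_rfl⟩, ((dep_blk _ _ _).toC_pre le_rfl A).trans h3⟩

theorem lr_of_cover {A B : Cs} (h1 : ∀ t, DD t B ≤ 1 / 2)
    (h2 : ∀ n, ∃ t, n ≤ t ∧ Gb (st t).1 B = true ∧ ∀ i < t, xr B (mask (st t).2.2.1) i = A i) :
    LRle A B := by
  intro Z hZ
  by_contra hA
  obtain ⟨e, he⟩ := capture hA
  obtain ⟨f, hf, hf'⟩ := exists_recursiveIn B (Ψ := fun x a =>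
    Nat.ble (st a.2.length).2.2.2 x.length && Nat.ble a.2.length x.length &&
      Gb (st a.2.length).1 (toC x) &&
      Et (Nat.pair e a.1 + 1) a.2.length (xr (toC x) (mask (st a.2.length).2.2.1)) (toC a.2))
    (by fun_prop)
  have hG : ∀ t j, (st t).2.2.2 ≤ j → Gb (st t).1 (toC (pre j B)) = Gb (st t).1 B :=
    fun t j hj => (str_st t).ch.depG.toC_pre hj B
  have hE : ∀ q t j m Y, t ≤ j → Et q t (xr (toC (pre j B)) m) Y = Et q t (xr B m) Y :=
    fun q t j m Y hj => ((Et_depX q t Y).xr m).toC_pre hj B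
  refine hZ (fun n => ⋃ ρ ∈ {ρ : List Bool | (f (n, ρ)).Dom}, cyl ρ)
    ⟨⟨f, hf, fun _ => rfl⟩, fun n => ?_⟩ (Set.mem_iInter.2 fun n => ?_)
  · set q := Nat.pair e n + 1 with hq
    have hsub : (⋃ ρ ∈ {ρ : List Bool | (f (n, ρ)).Dom}, cyl ρ)
        ⊆ ⋃ t, {Y | Rb q t B Y = true} := by
      intro Y hY
      simp only [Set.mem_iUnion] at hY
      obtain ⟨ρ, hρ, hY⟩ := hY
      obtain ⟨j, hj⟩ := (hf' _).1 hρ
      simp only [length_pre, Bool.and_eq_true, Nat.ble_eq] at hj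
      obtain ⟨⟨⟨h3, h4⟩, h5⟩, h6⟩ := hj
      rw [hG _ _ h3] at h5
      rw [hE _ _ _ _ _ h4, Et_depZ _ _ _ _ Y fun i hi => toC_of_mem_cyl hY hi] at h6
      exact Set.mem_iUnion.2 ⟨ρ.length, Rb_iff.2 ⟨_, le_rfl, h5, h6⟩⟩
    have hmono : Monotone (fun t => {Y | Rb q t B Y = true}) := fun a b hab Y hY => Rb_mono hab hY
    refine (measure_mono hsub).trans ?_
    rw [hmono.measure_iUnion]
    refine iSup_le fun t => ?_
    rw [coin_dep (Rb_depZ q t B), ← ofReal_half_pow]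
    refine ENNReal.ofReal_le_ofReal ?_
    have h3 := nu_term_le (N := t + q + 1) (by omega : q < t + q + 1) (fun q => Rb q t B)
    rw [← DD_eq (by omega), Av_stab ((Rb_depZ q t B).comp ind) (by omega)] at h3
    have h4 := h1 t
    have h5 : (2 : ℝ) ^ n ≤ 2 ^ q :=
      pow_le_pow_right₀ (by norm_num) (by have := Nat.right_le_pair e n; omega)
    have h6 : 0 ≤ Av t (fun Z => ind (Rb q t B Z)) := Av_nonneg _ fun _ => ind_nonneg _
    rw [one_div_pow, le_div_iff₀ (by positivity)]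
    nlinarith
  · obtain ⟨s, hs⟩ := he n
    obtain ⟨t, h3, h4, h5⟩ := h2 (s + Nat.pair e n + 2)
    refine Set.mem_biUnion (x := pre t Z) ((hf' _).2 ⟨t + (st t).2.2.2, ?_⟩) (mem_cyl_pre _ _)
    simp only [length_pre, Bool.and_eq_true, Nat.ble_eq]
    refine ⟨⟨⟨by omega, by omega⟩, (hG _ _ (by omega)).trans h4⟩, ?_⟩
    rw [hE _ _ _ _ _ (by omega), (Et_depZ _ _ _).toC_pre le_rfl,
      show Et _ t (xr B _) Z = Et _ t A Z from Et_depX _ t Z _ _ h5, Et_iff]
    exact ⟨by omega, Or.inr ⟨by omega, EE_mono (by omega) hs⟩⟩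

theorem Un_of_not_random {A Z : Cs} (h : ¬ RandomIn A Z) : ∃ s, Un s A Z = true := by
  obtain ⟨e, he⟩ := capture h
  obtain ⟨s, hs⟩ := he 0
  exact ⟨s + Nat.pair e 0 + 1, Un_iff.2 ⟨_, by omega, EE_mono (by omega) hs⟩⟩

theorem main : ∃ A B C : Cs, RandomIn (fun _ => false) A ∧ LRle A B ∧ RandomIn C B ∧
    ¬ RandomIn C A := by
  obtain ⟨A, B, C, h1, h2, h3, h4⟩ := exists_triple
  refine ⟨A, B, C, ?_, lr_of_cover h1 h4, ?_, not_random_of_blocks h3⟩
  · by_contra h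
    obtain ⟨s, hs⟩ := Un_of_not_random h
    obtain ⟨t, h5, h6, h7⟩ := h4 (s + 1)
    have h8 : ∀ Z, Rb 0 t B Z = true := fun Z => Rb_iff.2 ⟨t, le_rfl, h6, by
      rw [show Et 0 t (xr B _) Z = Et 0 t A Z from Et_depX _ t Z _ _ h7, Et_iff]
      exact ⟨by omega, Or.inl ⟨rfl, Un_mono (by omega) hs⟩⟩⟩
    have h9 := nu_term_le (N := t) (by omega : 0 < t) (fun q => Rb q t B)
    simp only [h8, ind_true, Av_const] at h9
    have h10 := h1 t
    unfold DD at h10
    linarith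
  · by_contra h
    obtain ⟨s, hs⟩ := Un_of_not_random h
    rw [h2 s] at hs
    exact absurd hs (by simp)

end Pool.Agent.Lib.MP_3d42d9_lc
end
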